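import Pool.Agent.T9h91.NF.Geom2

/-!
# Geometry of numbers for number fields: Riemann sums
-/

set_option autoImplicit false

namespace Pool.Agent.T9h91.NF

open Finset NumberField NumberField.mixedEmbedding Module MeasureTheory
open scoped Classical

variable {K : Type*} [Field K] [NumberField K]

variable (K) in
/-- covolume of the lattice `O_K` in the mixed space. -/
noncomputable def cov : ℝ := (volume (ZSpan.fundamentalDomain (latticeBasis K))).toReal

theorem cov_pos : 0 < cov K := by
  unfold cov
  apply ENNReal.toReal_pos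
  · exact ZSpan.measure_fundamentalDomain_ne_zero _
  · exact (ZSpan.fundamentalDomain_isBounded _).measure_lt_top.ne

theorem em_injective : Function.Injective (em (K := K)) := by
  intro x y h
  have h1 : mixedEmbedding K (x : K) = mixedEmbedding K (y : K) := h
  have h2 := mixedEmbedding_injective K h1
  exact_mod_cast h2

variable (K) in
/-- the integers as the lattice. -/
noncomputable def latEquiv :
    𝓞 K ≃ (Submodule.span ℤ (Set.range (latticeBasis K))).toAddSubgroup := by
  refine Equiv.ofBijective (fun x => ⟨em x, by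
    rw [Submodule.mem_toAddSubgroup, mem_span_latticeBasis]
    exact ⟨x, rfl⟩⟩) ⟨?_, ?_⟩
  · intro x y h
    exact em_injective (congrArg Subtype.val h)
  · intro g
    have h1 := g.2
    rw [Submodule.mem_toAddSubgroup, mem_span_latticeBasis] at h1
    obtain ⟨x, hx⟩ := h1
    exact ⟨x, Subtype.ext hx⟩

theorem latEquiv_coe (x : 𝓞 K) :
    ((latEquiv K x : (Submodule.span ℤ (Set.range (latticeBasis K))).toAddSubgroup) :
      mixedSpace K) = em x := rfl

variable (K) in
/-- **(G5)** Riemann sums. -/
theorem exists_riemann : ∃ C : ℝ, 1 ≤ C ∧ ∀ (f : mixedSpace K → ℝ) (D B : ℝ), 1 ≤ D → 0 ≤ B →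
    (∀ x, f x ≠ 0 → ‖x‖ ≤ D) →
    (∀ x y, |f x - f y| ≤ B * ‖x - y‖ / D ^ (dg K + 1)) →
    |∑' x : 𝓞 K, f (em x) - (∫ x, f x) / cov K| ≤ C * B / D := by
  obtain ⟨C₁, hC₁, h1⟩ := exists_pack K
  let b := latticeBasis K
  set R : ℝ := max (∑ i, ‖b i‖) 1 with hR
  have hR1 : 1 ≤ R := le_max_right _ _
  have hPR : ∀ x ∈ ZSpan.fundamentalDomain b, ‖x‖ ≤ R := by
    intro x hx
    have h2 := ZSpan.norm_fract_le b x
    rw [ZSpan.fract_eq_self.2 hx] at h2
    exact h2.trans (le_max_left _ _)
  set C₃ : ℝ := C₁ * ((2 * (1 + R)) ^ dg K + 1) with hC₃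
  have hC₃1 : 1 ≤ C₃ := by
    have : (0 : ℝ) ≤ (2 * (1 + R)) ^ dg K := by positivity
    nlinarith
  refine ⟨C₃ * R, by nlinarith, fun f D B hD hB hf hL => ?_⟩
  have hD0 : 0 < D := by linarith
  -- integrability
  have hcont : Continuous f := by
    apply continuous_iff_continuousAt.2
    intro x
    apply Metric.tendsto_nhds_nhds.2
    intro ε hε
    refine ⟨ε / (B / D ^ (dg K + 1) + 1), by positivity, fun y hy => ?_⟩
    rw [Real.dist_eq]
    rw [dist_eq_norm] at hy
    have hb : 0 ≤ B / D ^ (dg K + 1) := by positivity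
    calc |f y - f x| ≤ B * ‖y - x‖ / D ^ (dg K + 1) := hL y x
      _ = B / D ^ (dg K + 1) * ‖y - x‖ := by ring
      _ ≤ (B / D ^ (dg K + 1) + 1) * ‖y - x‖ := by
          apply mul_le_mul_of_nonneg_right _ (norm_nonneg _); linarith
      _ < (B / D ^ (dg K + 1) + 1) * (ε / (B / D ^ (dg K + 1) + 1)) := by
          apply mul_lt_mul_of_pos_left hy; positivity
      _ = ε := by field_simp
  have hcs : HasCompactSupport f := by
    apply HasCompactSupport.intro (isCompact_closedBall (0 : mixedSpace K) D)
    intro x hx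
    by_contra h2
    apply hx
    rw [mem_closedBall_zero_iff]
    exact hf x h2
  have hint : Integrable f volume := hcont.integrable_of_hasCompactSupport hcs
  have hfund := ZSpan.isAddFundamentalDomain' b (volume : Measure (mixedSpace K))
  have : Countable (Submodule.span ℤ (Set.range b)).toAddSubgroup := by
    change Countable (Submodule.span ℤ (Set.range b))
    infer_instance
  have hV := cov_pos (K := K)
  have hVfin : volume (ZSpan.fundamentalDomain b) ≠ ⊤ :=
    (ZSpan.fundamentalDomain_isBounded _).measure_lt_top.ne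
  have hI : ∫ x, f x = ∑' x : 𝓞 K, ∫ y in ZSpan.fundamentalDomain b, f (em x + y) := by
    rw [hfund.integral_eq_tsum'' f hint, ← (latEquiv K).tsum_eq]
    rfl
  -- the finite set
  set T : Finset (𝓞 K) := (finite_ball (K := K) (D + R)).toFinset with hT
  have hTmem : ∀ x, x ∈ T ↔ nm x ≤ D + R := by
    intro x; rw [hT, Set.Finite.mem_toFinset]; rfl
  have hz1 : ∀ x ∉ T, f (em x) = 0 := by
    intro x hx
    by_contra h2
    apply hx
    rw [hTmem]
    have : nm x ≤ D := hf _ h2
    linarith
  have hz2 : ∀ x ∉ T, ∫ y in ZSpan.fundamentalDomain b, f (em x + y) = 0 := by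
    intro x hx
    rw [setIntegral_congr_fun (g := fun _ => (0 : ℝ)) (ZSpan.fundamentalDomain_measurableSet b)]
    · simp
    · intro y hy
      by_contra h2
      apply hx
      rw [hTmem]
      have h3 : ‖em x + y‖ ≤ D := hf _ h2
      have h4 : nm x ≤ ‖em x + y‖ + ‖y‖ := by
        have := norm_sub_le (em x + y) y
        simpa [nm] using this
      have h5 := hPR y hy
      linarith
  rw [hI, tsum_eq_sum hz1, tsum_eq_sum hz2, Finset.sum_div, ← Finset.sum_sub_distrib]
  have hTc : (T.card : ℝ) ≤ C₃ * D ^ dg K := by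
    have h2 := h1 ⊤ (by exact top_ne_bot) (2 * (1 + R) * D) (by positivity) T
      (fun x _ y _ => trivial) ?_
    · rw [Ideal.absNorm_top, Nat.cast_one, div_one, mul_pow] at h2
      refine h2.trans ?_
      have h3 : 1 ≤ D ^ dg K := one_le_pow₀ hD
      rw [hC₃]
      nlinarith
    · intro x hx y hy
      rw [hTmem] at hx hy
      refine (nm_sub_le x y).trans ?_
      nlinarith
  have hterm : ∀ x ∈ T, |f (em x) - (∫ y in ZSpan.fundamentalDomain b, f (em x + y)) / cov K| ≤
      B * R / D ^ (dg K + 1) := by
    intro x _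
    have h2 : f (em x) = (∫ _ in ZSpan.fundamentalDomain b, f (em x)) / cov K := by
      rw [setIntegral_const, smul_eq_mul, eq_div_iff hV.ne', mul_comm]
      rfl
    have hi1 : IntegrableOn (fun _ : mixedSpace K => f (em x)) (ZSpan.fundamentalDomain b) :=
      integrableOn_const hVfin
    have hi2 : IntegrableOn (fun y : mixedSpace K => f (em x + y)) (ZSpan.fundamentalDomain b) := by
      have h3 : Integrable (fun y => f (em x + y)) volume := hint.comp_add_left (em x)
      exact h3.integrableOn
    have h4 : f (em x) - (∫ y in ZSpan.fundamentalDomain b, f (em x + y)) / cov K =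
        (∫ y in ZSpan.fundamentalDomain b, (f (em x) - f (em x + y))) / cov K := by
      rw [integral_sub hi1 hi2, sub_div, ← h2]
    rw [h4, abs_div, abs_of_pos hV, div_le_iff₀ hV]
    calc |∫ y in ZSpan.fundamentalDomain b, (f (em x) - f (em x + y))|
        ≤ (B * R / D ^ (dg K + 1)) * (volume (ZSpan.fundamentalDomain b)).toReal := by
          rw [← Real.norm_eq_abs]
          apply norm_setIntegral_le_of_norm_le_const hVfin.lt_top
          intro y hy
          rw [Real.norm_eq_abs]
          refine (hL _ _).trans ?_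
          apply div_le_div_of_nonneg_right _ (by positivity)
          apply mul_le_mul_of_nonneg_left _ hB
          rw [show em x - (em x + y) = -y by ring, norm_neg]
          exact hPR y hy
      _ = _ := rfl
  refine (Finset.abs_sum_le_sum_abs _ _).trans ((Finset.sum_le_sum hterm).trans ?_)
  rw [Finset.sum_const, nsmul_eq_mul]
  calc (T.card : ℝ) * (B * R / D ^ (dg K + 1)) ≤ C₃ * D ^ dg K * (B * R / D ^ (dg K + 1)) :=
        mul_le_mul_of_nonneg_right hTc (by positivity)
    _ = _ := by
        rw [pow_succ]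
        have : D ^ dg K ≠ 0 := by positivity
        field_simp

end Pool.Agent.T9h91.NF
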