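import Pool.Agent.T9h91.NF.Slot

/-!
# `CoreSOfK`
-/

set_option autoImplicit false

namespace Pool.Agent.T9h91.NF

open Finset NumberField Pool.Agent.T9h57.QD Pool.Agent.T9h11.NF

theorem PD_top {K : Type} [Field K] [NumberField K] (M : Ideal (𝓞 K)) : PD ⊤ M := by
  intro p hp _ h
  exact absurd (top_le_iff.1 (Ideal.dvd_iff_le.1 h)) hp.ne_top

/-- PIECE `CoreSOfK`. -/
theorem coreSOfK (K : Type) [Field K] [NumberField K] : CoreSOfK K := by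
  intro hLip hPlat hLat hDiv hCSum hSv hNC hCC hEq j n k e₀ c₀ q₀ ρ₁ ρ₂ ρ₃ Ψ ε hn hc₀ he₀ hq₀
    hρ₁ hρ₂ hρ₃ hΨ hε
  obtain ⟨n', rfl⟩ : ∃ n', n = n' + 1 := ⟨n - 1, by omega⟩
  set d := Module.finrank ℚ K with hd
  have hd0 : d ≠ 0 := Module.finrank_pos.ne'
  set φ : ℝ := phi q₀ with hφ
  have hφ0 : 0 < φ := phi_pos hq₀
  obtain ⟨L, B, hL, hB, -, hLip2, -, hLip0, -⟩ := hLip ρ₃ Ψ hρ₃ hΨ
  obtain ⟨a₁, b₁, ha₁, hab₁, hbd₁⟩ := adm_bound hρ₁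
  obtain ⟨a₂, b₂, ha₂, hab₂, hbd₂⟩ := adm_bound hρ₂
  have hb₂ : 0 < b₂ := ha₂.trans_le hab₂
  have hb₁ : 0 < b₁ := ha₁.trans_le hab₁
  obtain ⟨Ψ₁, hΨ₁, hΨ₁p⟩ := hPlat (a₁ ^ (n' + 1)) (b₁ ^ (n' + 1)) (by positivity)
    (pow_le_pow_left₀ ha₁.le hab₁ _)
  obtain ⟨CL, -, -, -, hLc, -⟩ := hLat
  set ε' : ℝ := ε ^ 2 / (8 * φ ^ 2) with hε'
  have hε'0 : 0 < ε' := by positivity
  have hε'2 : φ ^ 2 * ε' = ε ^ 2 / 8 := by rw [hε']; field_simp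
  set εN : ℝ := min (ε / 32) (ε ^ 2 / 16) with hεN
  have hεN0 : 0 < εN := lt_min (by positivity) (by positivity)
  have hεN1 : εN ≤ ε / 32 := min_le_left _ _
  have hεN2 : εN ≤ ε ^ 2 / 16 := min_le_right _ _
  obtain ⟨w₁, hw₁⟩ := hSv (n' + 1) k e₀ ρ₁ ρ₂ Ψ ε' hn he₀ hρ₁ hρ₂ hΨ hε'0
  obtain ⟨w₂, hw₂⟩ := hSv (n' + 1) k e₀ ρ₁ ρ₂ Ψ₁ 1 hn he₀ hρ₁ hρ₂ hΨ₁ one_pos
  obtain ⟨w₃, hw₃⟩ := hNC j k e₀ ρ₁ ρ₂ εN he₀ hρ₁ hρ₂ hεN0
  refine ⟨max w₁ (max w₂ w₃), ?_⟩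
  intro M H A₀ G hM hMw hqM hH hA₀ hG hAG hAGM
  have hM1 : SmallDvd w₁ M := fun p hp hb hpw => hMw p hp hb (hpw.trans (le_max_left _ _))
  have hM2 : SmallDvd w₂ M := fun p hp hb hpw => hMw p hp hb
    (hpw.trans ((le_max_left _ _).trans (le_max_right _ _)))
  have hM3 : SmallDvd w₃ M := fun p hp hb hpw => hMw p hp hb
    (hpw.trans ((le_max_right _ _).trans (le_max_right _ _)))
  obtain ⟨DS, hDS1, hDS⟩ := hw₁ M q₀ H hM hM1 hq₀ hqM hH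
  obtain ⟨DT, hDT1, hDT⟩ := hw₂ M ⊤ H hM hM2 (by exact top_ne_bot) (PD_top M) hH
  obtain ⟨DN, hDN1, hDN⟩ := hw₃ M H hM hM3 hH
  obtain ⟨CX, DX, hCX1, hDX1, hX'⟩ := hDiv ρ₁ M hρ₁ hM
  obtain ⟨CY, DY, hCY1, hDY1, hY'⟩ := hDiv ρ₂ M hρ₂ hM
  obtain ⟨Cs, DC, hCs1, hDC1, hC'⟩ := hCSum ρ₃ M hρ₃ hM
  obtain ⟨Cc, hCc1, hCc⟩ := hCC M q₀ hM hq₀ hqM
  obtain ⟨C₃, DE, hC₃1, hDE1, hE'⟩ := hEq ρ₁ Ψ M q₀ hρ₁ hΨ hM hq₀ hqM
  set K₀ : ℝ := Cc * L * (1 + B) ^ d * Cs with hK₀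
  have hK₀0 : 0 ≤ K₀ := by positivity
  set β : ℝ := (b₂ * H) ^ k with hβ
  have hβ0 : 0 < β := by positivity
  set C₄ : ℝ := 2 * φ * C₃ + φ ^ 2 * C₃ ^ 2 with hC₄
  have hC₄0 : 0 ≤ C₄ := by positivity
  set T : ℝ := 4 * (C₄ + K₀ * β * (2 * φ ^ 2 + 2 * φ + 1)) / ε ^ 2 with hT
  have hT0 : 0 ≤ T := by positivity
  have hφK : 0 ≤ φ * (K₀ * β) := by positivity
  refine ⟨DS + DT + DN + DX + DY + DC + DE + φ * (K₀ * β) + β + T, by linarith, ?_⟩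
  intro D hD X Y C hXs hYs hCs
  have hD1 : 1 ≤ D := by linarith
  have hD0 : 0 < D := by linarith
  have hDe : D ≤ H * D ^ e₀ := by
    calc D = 1 * D ^ 1 := by ring
      _ ≤ H * D ^ e₀ := mul_le_mul hH (pow_le_pow_right₀ hD1 he₀) (by positivity) (by linarith)
  have hDe0 : 0 < H * D ^ e₀ := by linarith
  have hDc : D ≤ D ^ c₀ := by
    calc D = D ^ 1 := (pow_one D).symm
      _ ≤ D ^ c₀ := pow_le_pow_right₀ hD1 (by omega)
  have hDc0 : 0 < D ^ c₀ := by linarith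
  obtain ⟨hXne, hXZ, -, -, -⟩ := hX' D (by linarith) X hXs
  obtain ⟨hYne, hYZ, -, -, -⟩ := hY' (H * D ^ e₀) (by linarith) Y hYs
  obtain ⟨hCne, hCZ, -⟩ := hC' (D ^ c₀) (by linarith) C hCs
  -- the weights
  set p : 𝓞 K → ℝ := pr (wl ρ₁ D) X with hp
  set q : 𝓞 K → ℝ := pr (wl ρ₂ (H * D ^ e₀)) Y with hq
  set r : 𝓞 K → ℝ := pr (wu ρ₃ (D ^ c₀)) C with hr
  have hp0 : ∀ x, 0 ≤ p x := pr_nonneg (wl_nonneg hρ₁ D) X
  have hq0 : ∀ x, 0 ≤ q x := pr_nonneg (wl_nonneg hρ₂ _) Y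
  have hr0 : ∀ x, 0 ≤ r x := pr_nonneg (wu_nonneg hρ₃ _) C
  have hp1 : ∑ x ∈ X, p x = 1 := sum_pr (lt_of_lt_of_le (by positivity) hXZ)
  have hq1 : ∑ x ∈ Y, q x = 1 := sum_pr (lt_of_lt_of_le (by positivity) hYZ)
  have hr1 : ∑ x ∈ C, r x = 1 := sum_pr (lt_of_lt_of_le (by positivity) hCZ)
  have hXc : ∀ x ∈ X, cop x M := fun x hx => ((hXs x).1 hx).1
  have hYc : ∀ x ∈ Y, cop x M := fun x hx => ((hYs x).1 hx).1
  have hXb : ∀ x ∈ X, ∀ v, a₁ * D ≤ ‖(E (x : K) : Sp K) v‖ ∧ ‖(E (x : K) : Sp K) v‖ ≤ b₁ * D :=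
    fun x hx => hbd₁ D x hD0 ((hXs x).1 hx).2
  have hYb : ∀ x ∈ Y, ∀ v, a₂ * (H * D ^ e₀) ≤ ‖(E (x : K) : Sp K) v‖ ∧
      ‖(E (x : K) : Sp K) v‖ ≤ b₂ * (H * D ^ e₀) :=
    fun x hx => hbd₂ (H * D ^ e₀) x hDe0 ((hYs x).1 hx).2
  have hY0 : ∀ y : Fin k → 𝓞 K, (∀ i, y i ∈ Y) → ∏ i, y i ≠ 0 := by
    intro y hy
    apply ne_zero_of_bound (c := (a₂ * (H * D ^ e₀)) ^ k) (by positivity)
    intro v
    exact (prod_bound (by positivity) (fun i v => hYb _ (hy i) v) v).1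
  have hYI : ∀ y : Fin k → 𝓞 K, (∀ i, y i ∈ Y) → Ideal.span {∏ i, y i} ≠ ⊥ := by
    intro y hy h
    exact hY0 y hy (Ideal.span_singleton_eq_bot.1 h)
  have hAGq := cop_mul_iff.1 hAG
  have hPA : PD (Ideal.span {A₀}) M := fun P hP hPb h => hAGM P hP hPb (by
    rw [← Ideal.span_singleton_mul_span_singleton]
    exact h.mul_right _)
  have hPG : PD (Ideal.span {G}) M := fun P hP hPb h => hAGM P hP hPb (by
    rw [← Ideal.span_singleton_mul_span_singleton]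
    exact h.mul_left _)
  have hA₀b : Ideal.span {A₀} ≠ ⊥ := fun h => hA₀ (Ideal.span_singleton_eq_bot.1 h)
  have hGb : Ideal.span {G} ≠ ⊥ := fun h => hG (Ideal.span_singleton_eq_bot.1 h)
  -- counting hypothesis
  set η : ℝ := K₀ * β / D with hη
  have hη0 : 0 ≤ η := by positivity
  have hη1 : φ * η ≤ 1 := by
    rw [hη, ← mul_div_assoc, div_le_one hD0]
    linarith
  have hCCy : ∀ y : Fin k → 𝓞 K, (∀ i, y i ∈ Y) → CC Ψ C r q₀ (q₀ * Ideal.span {∏ i, y i})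
      (phi q₀ * nm (Ideal.span {∏ i, y i})) (η / nm (Ideal.span {∏ i, y i})) := by
    intro y hy
    set τ := Ideal.span {∏ i, y i} with hτ
    have hτb : τ ≠ ⊥ := hYI y hy
    have hτ0 : 0 < nm τ := nm_pos hτb
    set s : ℝ := (nm τ) ^ ((1 : ℝ) / (d : ℝ)) with hs
    have hs0 : 0 < s := Real.rpow_pos_of_pos hτ0 _
    have hdR : (d : ℝ) ≠ 0 := by exact_mod_cast hd0
    have hsd : s ^ d = nm τ := by
      rw [hs, ← Real.rpow_natCast, ← Real.rpow_mul hτ0.le, one_div_mul_cancel hdR, Real.rpow_one]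
    have hyn : ‖(E ((∏ i, y i : 𝓞 K) : K) : Sp K)‖ ≤ (b₂ * (H * D ^ e₀)) ^ k := by
      rw [pi_norm_le_iff_of_nonneg (by positivity)]
      intro v
      exact (prod_bound (by positivity) (fun i v => hYb _ (hy i) v) v).2
    have hs1 : s ≤ (b₂ * (H * D ^ e₀)) ^ k := by
      have h1 := hLc τ (∏ i, y i) (Ideal.mem_span_singleton_self _) (hY0 y hy)
      have h2 : s ^ d ≤ ((b₂ * (H * D ^ e₀)) ^ k) ^ d := by
        rw [hsd]
        exact h1.1.trans (h1.2.trans (pow_le_pow_left₀ (norm_nonneg _) hyn _))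
      exact le_of_pow_le_pow_left₀ hd0 (by positivity) h2
    have hs2 : (b₂ * (H * D ^ e₀)) ^ k = β * D ^ (e₀ * k) := by
      rw [hβ, ← mul_assoc, mul_pow, pow_mul]
    have hs3 : s * D ≤ β * D ^ c₀ := by
      calc s * D ≤ β * D ^ (e₀ * k) * D := by
            apply mul_le_mul_of_nonneg_right _ hD0.le
            rw [← hs2]; exact hs1
        _ = β * D ^ (e₀ * k + 1) := by rw [pow_succ]; ring
        _ ≤ β * D ^ c₀ := mul_le_mul_of_nonneg_left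
            (pow_le_pow_right₀ hD1 (by omega)) hβ0.le
    have hsD : s / D ^ c₀ ≤ β / D := by
      rw [div_le_div_iff₀ hDc0 hD0]
      exact hs3
    have hsD' : s ≤ D ^ c₀ := by
      have h1 : β / D ≤ 1 := by
        rw [div_le_one hD0]
        linarith
      have h2 := hsD.trans h1
      rwa [div_le_one hDc0] at h2
    have hτM : IsCoprime τ M := cop_prod fun i => hYc _ (hy i)
    have h1 := cc_of (Ψ := Ψ) hρ₃ hq₀ hDc0 hs0 hsD' hsd hτb hτM hL hB hCc1 hCs1 hLip2 hLip0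
      (fun κ hκ F L B hL hB hF S hS => hCc τ s κ hτb hτM hs0 hsd hκ F L B hL hB hF S hS)
      hCs hCZ
    refine ⟨fun w w' κ hκ => (h1.two w w' κ hκ).trans ?_, fun κ hκ => (h1.zero κ hκ).trans ?_⟩
    · apply div_le_div_of_nonneg_right _ hτ0.le
      rw [hη, mul_div_assoc]
      exact mul_le_mul_of_nonneg_left hsD hK₀0
    · apply div_le_div_of_nonneg_right _ hτ0.le
      rw [hη, mul_div_assoc]
      exact mul_le_mul_of_nonneg_left hsD hK₀0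
  -- the sieve bounds
  have hS := hDS D (by linarith) X Y hXs hYs
  have hE := hE' D (by linarith) X hXs
  have hS1 : exk k Y q (fun y => nm (Ideal.span {∏ i, y i}) *
      exk (n' + 1) X p (fun x => exk (n' + 1) X p (fun x' =>
        ind (∏ i, x i - ∏ i, x' i ∈ Ideal.span {∏ i, y i})))) ≤ 2 := by
    set z : Sp K := fun _ => ((D ^ (n' + 1) : ℝ) : ℂ)⁻¹ with hz
    have h1 := hDT D (by linarith) X Y hXs hYs 0 z
    have h2 : ∀ x : Fin (n' + 1) → 𝓞 K, (∀ i, x i ∈ X) →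
        Ψ₁ (z * E ((∏ i, x i : 𝓞 K) : K)) * ind (∏ i, x i - 0 ∈ (⊤ : Ideal (𝓞 K))) = 1 := by
      intro x hx
      rw [ind_true (by trivial), mul_one]
      apply hΨ₁p
      intro v
      have h3 := prod_bound (by positivity : 0 ≤ a₁ * D) (fun i v => hXb _ (hx i) v) v
      have h4 : ‖(z * E ((∏ i, x i : 𝓞 K) : K) : Sp K) v‖ =
          ‖(E ((∏ i, x i : 𝓞 K) : K) : Sp K) v‖ / D ^ (n' + 1) := by
        rw [Pi.mul_apply, norm_mul, hz]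
        simp only [norm_inv, Complex.norm_real, Real.norm_eq_abs]
        rw [abs_of_pos (by positivity : 0 < D ^ (n' + 1))]
        ring
      rw [h4, le_div_iff₀ (by positivity), div_le_iff₀ (by positivity), ← mul_pow, ← mul_pow]
      exact h3
    have h3 : exk k Y q (fun y => nm (Ideal.span {∏ i, y i}) *
      exk (n' + 1) X p (fun x => exk (n' + 1) X p (fun x' =>
        ind (∏ i, x i - ∏ i, x' i ∈ Ideal.span {∏ i, y i})))) =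
        exk k Y q (fun y => nm (Ideal.span {∏ i, y i}) *
      exk (n' + 1) X p (fun x => exk (n' + 1) X p (fun x' =>
        (Ψ₁ (z * E ((∏ i, x i : 𝓞 K) : K)) * ind (∏ i, x i - 0 ∈ (⊤ : Ideal (𝓞 K)))) *
        (Ψ₁ (z * E ((∏ i, x' i : 𝓞 K) : K)) * ind (∏ i, x' i - 0 ∈ (⊤ : Ideal (𝓞 K)))) *
        ind (∏ i, x i - ∏ i, x' i ∈ Ideal.span {∏ i, y i})))) := by
      refine exk_congr fun y _ => ?_
      congr 1
      refine exk_congr fun x hx => exk_congr fun x' hx' => ?_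
      rw [h2 x hx, h2 x' hx', one_mul, one_mul]
    rw [h3]
    refine h1.trans ?_
    have h5 : exk (n' + 1) X p (fun x => Ψ₁ (z * E ((∏ i, x i : 𝓞 K) : K)) *
        ind (∏ i, x i - 0 ∈ (⊤ : Ideal (𝓞 K)))) = 1 := by
      rw [exk_congr h2]
      exact exk_const hp1 1
    rw [h5]
    norm_num
  -- the bound for each `u`
  have hu : ∀ u : Fin j → 𝓞 K, (∀ i, u i ∈ X) →
      exk k Y q (fun y => ∑ c ∈ C, r c *
        |phi q₀ * nm (Ideal.span {∏ i, y i}) * exk (n' + 1) X p (fun v =>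
          Wd Ψ (A₀ * ∏ i, u i) G c (∏ i, v i) *
            ind (A₀ * (∏ i, u i) * (∏ i, v i) - G * c ∈ q₀ * Ideal.span {∏ i, y i})) -
        exk (n' + 1) X p (fun v => Wd Ψ (A₀ * ∏ i, u i) G c (∏ i, v i))|) ≤
      3 * exk k Y q (fun y => ind (¬ cop (∏ i, u i) (Ideal.span {∏ i, y i}))) + ε / 4 +
      1 / ε * (φ ^ 2 * ε' + C₄ / D +
        exk k Y q (fun y => ind (¬ cop (∏ i, u i) (Ideal.span {∏ i, y i}))) +
        η * (2 * φ ^ 2 + 2 * φ + 1)) := by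
    intro u hu
    have hUM : cop (∏ i, u i) M := cop_prod fun i => hXc _ (hu i)
    have hdat : ∀ y : Fin k → 𝓞 K, (∀ i, y i ∈ Y) →
        Dat M q₀ (Ideal.span {∏ i, y i}) G (A₀ * ∏ i, u i) := by
      intro y hy
      have hyM : cop (∏ i, y i) M := cop_prod fun i => hYc _ (hy i)
      refine ⟨hq₀, hYI y hy, hqM, hyM, ?_, ?_⟩
      · exact cop_mul_right.2 ⟨hAGq.2, cop_comm.1 (cop_of_PD hGb hPG hyM)⟩
      · exact cop_mul hAGq.1 (cop_of_PD hq₀ hqM hUM)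
    exact core_u (U := ∏ i, u i) hΨ hq₀ hqM hD1 hdat
      (fun y hy h => by
        have hyM : cop (∏ i, y i) M := cop_prod fun i => hYc _ (hy i)
        exact cop_mul (cop_comm.1 (cop_of_PD hA₀b hPA hyM)) h)
      hXc hp0 hp1 hq0 hq1 hr0 hr1 (by linarith) hε hη0 hη1 hCCy hE hS hS1
  refine (exk_mono hp0 hu).trans ?_
  have hnc := hDN D (by linarith) X Y hXs hYs
  set NC := exk j X p (fun u => exk k Y q (fun y =>
    ind (¬ cop (∏ i, u i) (Ideal.span {∏ i, y i})))) with hNCd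
  have e1 : exk j X p (fun u => 3 * exk k Y q (fun y =>
      ind (¬ cop (∏ i, u i) (Ideal.span {∏ i, y i}))) + ε / 4 +
      1 / ε * (φ ^ 2 * ε' + C₄ / D +
        exk k Y q (fun y => ind (¬ cop (∏ i, u i) (Ideal.span {∏ i, y i}))) +
        η * (2 * φ ^ 2 + 2 * φ + 1))) =
      3 * NC + ε / 4 + 1 / ε * (φ ^ 2 * ε' + C₄ / D + NC + η * (2 * φ ^ 2 + 2 * φ + 1)) := by
    rw [exk_add, exk_add, exk_mul_left, exk_const hp1, exk_mul_left, exk_add, exk_add,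
      exk_const hp1, exk_const hp1]
  rw [e1]
  have h6 : C₄ / D + η * (2 * φ ^ 2 + 2 * φ + 1) ≤ ε ^ 2 / 4 := by
    have h7 : C₄ / D + η * (2 * φ ^ 2 + 2 * φ + 1) =
        (C₄ + K₀ * β * (2 * φ ^ 2 + 2 * φ + 1)) / D := by rw [hη]; ring
    rw [h7, div_le_iff₀ hD0]
    have h8 : T ≤ D := by linarith
    rw [hT, div_le_iff₀ (by positivity)] at h8
    linarith
  have h7 : φ ^ 2 * ε' + C₄ / D + NC + η * (2 * φ ^ 2 + 2 * φ + 1) ≤ ε ^ 2 * (7 / 16) := by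
    linarith
  have h8 : 1 / ε * (φ ^ 2 * ε' + C₄ / D + NC + η * (2 * φ ^ 2 + 2 * φ + 1)) ≤ ε * (7 / 16) := by
    calc _ ≤ 1 / ε * (ε ^ 2 * (7 / 16)) := mul_le_mul_of_nonneg_left h7 (by positivity)
      _ = ε * (7 / 16) := by field_simp
  linarith

end Pool.Agent.T9h91.NF
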