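import Pool.Agent.T9h91.NF.Exk

/-!
# Coprimality of integers and ideals
-/

set_option autoImplicit false

namespace Pool.Agent.T9h91.NF

open Finset NumberField Pool.Agent.T9h57.QD Pool.Agent.T9h11.NF

variable {K : Type} [Field K] [NumberField K]

theorem cop_mul {x y : 𝓞 K} {I : Ideal (𝓞 K)} (hx : cop x I) (hy : cop y I) : cop (x * y) I := by
  unfold cop at *
  rw [← Ideal.span_singleton_mul_span_singleton]
  exact hx.mul_left hy

theorem cop_mul_iff {x y : 𝓞 K} {I : Ideal (𝓞 K)} : cop (x * y) I ↔ cop x I ∧ cop y I := by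
  unfold cop at *
  rw [← Ideal.span_singleton_mul_span_singleton]
  exact IsCoprime.mul_left_iff

theorem cop_mul_right {x : 𝓞 K} {I J : Ideal (𝓞 K)} : cop x (I * J) ↔ cop x I ∧ cop x J := by
  unfold cop
  exact IsCoprime.mul_right_iff

theorem cop_prod {n : ℕ} {v : Fin n → 𝓞 K} {I : Ideal (𝓞 K)} (hv : ∀ i, cop (v i) I) :
    cop (∏ i, v i) I := by
  unfold cop at *
  rw [← Ideal.prod_span_singleton]
  exact IsCoprime.prod_left fun i _ => hv i

theorem cop_comm {x y : 𝓞 K} : cop x (Ideal.span {y}) ↔ cop y (Ideal.span {x}) := by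
  unfold cop
  exact isCoprime_comm

/-- an inverse modulo the ideal. -/
theorem cop_inv {x : 𝓞 K} {I : Ideal (𝓞 K)} (h : cop x I) : ∃ y : 𝓞 K, x * y - 1 ∈ I := by
  unfold cop at h
  rw [Ideal.isCoprime_iff_exists] at h
  obtain ⟨i, hi, j, hj, hij⟩ := h
  rw [Ideal.mem_span_singleton] at hi
  obtain ⟨y, hy⟩ := hi
  refine ⟨y, ?_⟩
  have : x * y - 1 = - j := by rw [← hy, ← hij]; ring
  rw [this]
  exact I.neg_mem hj

theorem cop_of_inv {x y : 𝓞 K} {I : Ideal (𝓞 K)} (h : x * y - 1 ∈ I) : cop x I := by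
  unfold cop
  rw [Ideal.isCoprime_iff_exists]
  exact ⟨x * y, Ideal.mem_span_singleton.2 (Dvd.intro _ rfl), -(x * y - 1), I.neg_mem h, by ring⟩

/-- cancellation. -/
theorem cop_cancel {x z : 𝓞 K} {I : Ideal (𝓞 K)} (h : cop x I) (hz : x * z ∈ I) : z ∈ I := by
  obtain ⟨y, hy⟩ := cop_inv h
  have h1 : z = y * (x * z) - z * (x * y - 1) := by ring
  rw [h1]
  exact I.sub_mem (I.mul_mem_left _ hz) (I.mul_mem_left _ hy)

theorem cop_congr {x y : 𝓞 K} {I : Ideal (𝓞 K)} (h : x - y ∈ I) (hy : cop y I) : cop x I := by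
  obtain ⟨z, hz⟩ := cop_inv hy
  apply cop_of_inv (y := z)
  have h1 : x * z - 1 = (y * z - 1) + (x - y) * z := by ring
  rw [h1]
  exact I.add_mem hz (I.mul_mem_right _ h)

/-- coprimality passes from `M` to ideals composed of primes dividing `M`. -/
theorem cop_of_PD {x : 𝓞 K} {M q : Ideal (𝓞 K)} (hq : q ≠ ⊥) (h : PD q M) (hx : cop x M) :
    cop x q := by
  by_contra hcon
  unfold cop at hcon hx
  rw [Ideal.isCoprime_iff_sup_eq] at hcon hx
  obtain ⟨m, hm, hle⟩ := Ideal.exists_le_maximal _ hcon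
  have h1 : q ≤ m := le_sup_right.trans hle
  have h2 : Ideal.span {x} ≤ m := le_sup_left.trans hle
  have hmb : m ≠ ⊥ := by
    rintro rfl
    exact hq (le_bot_iff.1 h1)
  have h3 := h m hm.isPrime hmb (Ideal.dvd_iff_le.2 h1)
  have h4 : M ≤ m := Ideal.dvd_iff_le.1 h3
  have h5 : (⊤ : Ideal (𝓞 K)) ≤ m := by
    rw [← hx]
    exact sup_le h2 h4
  exact hm.ne_top (top_le_iff.1 h5)

/-- solving `x κ ≡ f`. -/
theorem solve_mod {x : 𝓞 K} {I : Ideal (𝓞 K)} (h : cop x I) (f : 𝓞 K) :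
    ∃ κ : 𝓞 K, x * κ - f ∈ I ∧ (∀ J : Ideal (𝓞 K), I ≤ J → cop f J → cop κ J) := by
  obtain ⟨y, hy⟩ := cop_inv h
  refine ⟨y * f, ?_, ?_⟩
  · have h1 : x * (y * f) - f = (x * y - 1) * f := by ring
    rw [h1]
    exact I.mul_mem_right _ hy
  · intro J hJ hf
    refine cop_mul ?_ hf
    apply cop_of_inv (y := x)
    rw [mul_comm]
    exact hJ hy

theorem nm_nonneg' (I : Ideal (𝓞 K)) : 0 ≤ nm I := by unfold nm; positivity

theorem nm_pos {I : Ideal (𝓞 K)} (h : I ≠ ⊥) : 0 < nm I := by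
  unfold nm
  have : Ideal.absNorm I ≠ 0 := fun h0 => h (Ideal.absNorm_eq_zero_iff.1 h0)
  positivity

theorem one_le_nm {I : Ideal (𝓞 K)} (h : I ≠ ⊥) : 1 ≤ nm I := by
  unfold nm
  have : Ideal.absNorm I ≠ 0 := fun h0 => h (Ideal.absNorm_eq_zero_iff.1 h0)
  exact_mod_cast Nat.one_le_iff_ne_zero.2 this

instance finite_quot_units {I : Ideal (𝓞 K)} [h : Fact (I ≠ ⊥)] : Finite (𝓞 K ⧸ I)ˣ := by
  have : Finite (𝓞 K ⧸ I) := Ideal.finiteQuotientOfFreeOfNeBot I h.out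
  infer_instance

theorem phi_pos {I : Ideal (𝓞 K)} (h : I ≠ ⊥) : 0 < phi I := by
  unfold phi
  have : Finite (𝓞 K ⧸ I) := Ideal.finiteQuotientOfFreeOfNeBot I h
  have h1 : 0 < Nat.card (𝓞 K ⧸ I)ˣ := Nat.card_pos
  exact_mod_cast h1

/-- representatives of the unit classes. -/
theorem exists_rep {q : Ideal (𝓞 K)} (hq : q ≠ ⊥) :
    ∃ R : Finset (𝓞 K), (R.card : ℝ) = phi q ∧ (∀ κ ∈ R, cop κ q) ∧
      ∀ x : 𝓞 K, cop x q → ∃ κ ∈ R, x - κ ∈ q := by
  classical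
  have hfin : Finite (𝓞 K ⧸ q) := Ideal.finiteQuotientOfFreeOfNeBot q hq
  let _ := Fintype.ofFinite (𝓞 K ⧸ q)ˣ
  choose g hg using fun u : (𝓞 K ⧸ q)ˣ => Ideal.Quotient.mk_surjective (u : 𝓞 K ⧸ q)
  have hginj : Function.Injective g := by
    intro u u' h
    apply Units.ext
    rw [← hg u, ← hg u', h]
  refine ⟨univ.image g, ?_, ?_, ?_⟩
  · rw [card_image_of_injective _ hginj, card_univ]
    unfold phi
    rw [Nat.card_eq_fintype_card]
  · intro κ hκ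
    obtain ⟨u, _, rfl⟩ := mem_image.1 hκ
    obtain ⟨y, hy⟩ := Ideal.Quotient.mk_surjective ((u⁻¹ : (𝓞 K ⧸ q)ˣ) : 𝓞 K ⧸ q)
    apply cop_of_inv (y := y)
    apply Ideal.Quotient.eq.1
    rw [map_mul, hg u, hy, map_one]
    exact u.mul_inv
  · intro x hx
    obtain ⟨y, hy⟩ := cop_inv hx
    have h1 : Ideal.Quotient.mk q x * Ideal.Quotient.mk q y = 1 := by
      rw [← map_mul, ← map_one (Ideal.Quotient.mk q)]
      exact Ideal.Quotient.eq.2 hy
    let u : (𝓞 K ⧸ q)ˣ := Units.mkOfMulEqOne _ _ h1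
    refine ⟨g u, mem_image_of_mem _ (mem_univ _), ?_⟩
    apply Ideal.Quotient.eq.1
    rw [hg u]
    rfl

end Pool.Agent.T9h91.NF
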