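import Pool.Agent.T9h91.NF.Siv

/-!
# `CoreSOfK`: the estimate for fixed `u`
-/

set_option autoImplicit false

namespace Pool.Agent.T9h91.NF

open Finset NumberField Pool.Agent.T9h57.QD Pool.Agent.T9h11.NF

variable {K : Type} [Field K] [NumberField K]

theorem core_u {M q₀ : Ideal (𝓞 K)} {n k : ℕ} {D : ℝ} {G A U : 𝓞 K} {X Y C : Finset (𝓞 K)}
    {p q r : 𝓞 K → ℝ} {Ψ : Sp K → ℝ} (hΨ : Adm Ψ) (hq₀ : q₀ ≠ ⊥) (hqM : PD q₀ M) (hD : 1 ≤ D)
    (hd : ∀ y : Fin k → 𝓞 K, (∀ i, y i ∈ Y) → Dat M q₀ (Ideal.span {∏ i, y i}) G A)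
    (hcop : ∀ y : Fin k → 𝓞 K, (∀ i, y i ∈ Y) → cop U (Ideal.span {∏ i, y i}) →
      cop A (Ideal.span {∏ i, y i}))
    (hX : ∀ x ∈ X, cop x M) (hp : ∀ x, 0 ≤ p x) (hX1 : ∑ x ∈ X, p x = 1)
    (hq : ∀ x, 0 ≤ q x) (hY1 : ∑ x ∈ Y, q x = 1)
    (hr : ∀ x, 0 ≤ r x) (hC1 : ∑ x ∈ C, r x = 1)
    {C₃ ε ε' η : ℝ} (hC₃ : 0 ≤ C₃) (hε : 0 < ε) (hη : 0 ≤ η) (hη1 : phi q₀ * η ≤ 1)
    (hCC : ∀ y : Fin k → 𝓞 K, (∀ i, y i ∈ Y) → CC Ψ C r q₀ (q₀ * Ideal.span {∏ i, y i})
      (phi q₀ * nm (Ideal.span {∏ i, y i})) (η / nm (Ideal.span {∏ i, y i})))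
    (hE : ∀ (κ : 𝓞 K) (w : Sp K), cop κ q₀ →
      |∑ x ∈ X, p x * Ψ (w * E (x : K)) * ind (x - κ ∈ q₀) -
      (∑ x ∈ X, p x * Ψ (w * E (x : K))) / phi q₀| ≤ C₃ / D)
    (hS : ∀ (κ : 𝓞 K) (z : Sp K), exk k Y q (fun y => nm (Ideal.span {∏ i, y i}) *
      exk (n + 1) X p (fun x => exk (n + 1) X p (fun x' =>
        (Ψ (z * E ((∏ i, x i : 𝓞 K) : K)) * ind (∏ i, x i - κ ∈ q₀)) *
        (Ψ (z * E ((∏ i, x' i : 𝓞 K) : K)) * ind (∏ i, x' i - κ ∈ q₀)) *
        ind (∏ i, x i - ∏ i, x' i ∈ Ideal.span {∏ i, y i})))) ≤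
      (exk (n + 1) X p (fun x =>
        Ψ (z * E ((∏ i, x i : 𝓞 K) : K)) * ind (∏ i, x i - κ ∈ q₀))) ^ 2 + ε')
    (hS1 : exk k Y q (fun y => nm (Ideal.span {∏ i, y i}) *
      exk (n + 1) X p (fun x => exk (n + 1) X p (fun x' =>
        ind (∏ i, x i - ∏ i, x' i ∈ Ideal.span {∏ i, y i})))) ≤ 2) :
    exk k Y q (fun y => ∑ c ∈ C, r c * |phi q₀ * nm (Ideal.span {∏ i, y i}) *
        exk (n + 1) X p (fun v => Wd Ψ A G c (∏ i, v i) *
          ind (A * ∏ i, v i - G * c ∈ q₀ * Ideal.span {∏ i, y i})) -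
        exk (n + 1) X p (fun v => Wd Ψ A G c (∏ i, v i))|) ≤
      3 * exk k Y q (fun y => ind (¬ cop U (Ideal.span {∏ i, y i}))) + ε / 4 +
      1 / ε * (phi q₀ ^ 2 * ε' + (2 * phi q₀ * C₃ + phi q₀ ^ 2 * C₃ ^ 2) / D +
        exk k Y q (fun y => ind (¬ cop U (Ideal.span {∏ i, y i}))) +
        η * (2 * phi q₀ ^ 2 + 2 * phi q₀ + 1)) := by
  set φ : ℝ := phi q₀ with hφ
  have hφ0 : 0 < φ := phi_pos hq₀
  set P : 𝓞 K → ℝ := fun c => exk (n + 1) X p (fun v => Wd Ψ A G c (∏ i, v i)) with hP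
  have hP0 : ∀ c, 0 ≤ P c := fun c => exk_nonneg hp fun v _ => Wd_nonneg hΨ _ _ _ _
  have hP1 : ∀ c, P c ≤ 1 := fun c => exk_le_one hp hX1 fun v => Wd_le_one hΨ _ _ _ _
  set S : (Fin k → 𝓞 K) → 𝓞 K → ℝ := fun y c => exk (n + 1) X p (fun v =>
    Wd Ψ A G c (∏ i, v i) * ind (A * ∏ i, v i - G * c ∈ q₀ * Ideal.span {∏ i, y i})) with hSd
  set Q : (Fin k → 𝓞 K) → 𝓞 K → ℝ := fun y c => exk (n + 1) X p (fun v =>
    exk (n + 1) X p (fun v' => Wd Ψ A G c (∏ i, v i) * Wd Ψ A G c (∏ i, v' i) *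
    ind (∏ i, v i - ∏ i, v' i ∈ q₀ * Ideal.span {∏ i, y i}))) with hQ
  have hQ0 : ∀ y c, 0 ≤ Q y c := fun y c => exk_nonneg hp fun v _ => exk_nonneg hp fun v' _ =>
    mul_nonneg (mul_nonneg (Wd_nonneg hΨ _ _ _ _) (Wd_nonneg hΨ _ _ _ _)) (ind_nonneg _)
  set R : (Fin k → 𝓞 K) → ℝ := fun y => exk (n + 1) X p (fun v => exk (n + 1) X p (fun v' =>
    ind (∏ i, v i - ∏ i, v' i ∈ Ideal.span {∏ i, y i}))) with hR
  have hR0 : ∀ y, 0 ≤ R y := fun y => exk_nonneg hp fun v _ => exk_nonneg hp fun v' _ =>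
    ind_nonneg _
  set nc : (Fin k → 𝓞 K) → ℝ := fun y => ind (¬ cop U (Ideal.span {∏ i, y i})) with hnc
  have hnc0 : ∀ y, 0 ≤ nc y := fun y => ind_nonneg _
  -- pointwise bound
  have hpt : ∀ y : Fin k → 𝓞 K, (∀ i, y i ∈ Y) →
      ∑ c ∈ C, r c * |φ * nm (Ideal.span {∏ i, y i}) * S y c - P c| ≤
      3 * nc y + ε / 4 + 1 / ε * (∑ c ∈ C, r c *
        ((φ * nm (Ideal.span {∏ i, y i})) * Q y c - P c ^ 2 + nc y) +
        η * φ ^ 2 * (nm (Ideal.span {∏ i, y i}) * R y) + η * (2 * φ + 1)) := by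
    intro y hy
    set τ : ℝ := nm (Ideal.span {∏ i, y i}) with hτ
    have hτ0 : 0 < τ := nm_pos (hd y hy).t0
    have hτ1 : 1 ≤ τ := one_le_nm (hd y hy).t0
    have hB0 : 0 < φ * τ := by positivity
    have hητ : 0 ≤ η / τ := by positivity
    by_cases hU : cop U (Ideal.span {∏ i, y i})
    · have h1 : nc y = 0 := ind_false (not_not.2 hU)
      have h2 := second (hd y hy) (hcop y hy hU) hB0 hητ hr (hCC y hy) (n + 1) hp hX hX1
      simp_rw [h1, add_zero, mul_zero, zero_add]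
      have h3 : ∀ z : ℝ, |z| ≤ z ^ 2 / ε + ε / 4 := by
        intro z
        have h5 : 0 ≤ (|z| / ε - 1 / 2) ^ 2 * ε := by positivity
        have h6 : (|z| / ε - 1 / 2) ^ 2 * ε = z ^ 2 / ε + ε / 4 - |z| := by
          have h7 : |z| ^ 2 = z ^ 2 := sq_abs z
          field_simp
          rw [← h7]
          ring
        linarith
      have h4 : ∑ c ∈ C, r c * |φ * τ * S y c - P c| ≤
          ∑ c ∈ C, (1 / ε * (r c * (φ * τ * S y c - P c) ^ 2) + r c * (ε / 4)) := by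
        refine sum_le_sum fun c _ => ?_
        calc r c * |φ * τ * S y c - P c| ≤ r c * ((φ * τ * S y c - P c) ^ 2 / ε + ε / 4) :=
              mul_le_mul_of_nonneg_left (h3 _) (hr c)
          _ = _ := by ring
      refine h4.trans ?_
      rw [sum_add_distrib, ← sum_mul, hC1, one_mul, ← mul_sum, add_comm]
      have h5 : ∑ c ∈ C, r c * (φ * τ * S y c - P c) ^ 2 ≤
          ∑ c ∈ C, r c * ((φ * τ) * Q y c - P c ^ 2) + η * φ ^ 2 * (τ * R y) +
            η * (2 * φ + 1) := by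
        refine h2.trans ?_
        have h6 : exk (n + 1) X p (fun v => exk (n + 1) X p (fun v' =>
            ind (∏ i, v i - ∏ i, v' i ∈ q₀ * Ideal.span {∏ i, y i}))) ≤ R y :=
          exk_mono hp fun x _ => exk_mono hp fun x' _ => ind_mono fun h => Ideal.mul_le_right h
        have h7 : η / τ * (φ * τ) ^ 2 * exk (n + 1) X p (fun v => exk (n + 1) X p (fun v' =>
            ind (∏ i, v i - ∏ i, v' i ∈ q₀ * Ideal.span {∏ i, y i}))) ≤
            η * φ ^ 2 * (τ * R y) := by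
          have h8 : η / τ * (φ * τ) ^ 2 = η * φ ^ 2 * τ := by field_simp
          rw [h8, ← mul_assoc]
          exact mul_le_mul_of_nonneg_left h6 (by positivity)
        have h8 : 2 * (η / τ) * (φ * τ) = 2 * η * φ := by field_simp
        have h9 : η / τ ≤ η := div_le_self hη hτ1
        rw [h8]
        linarith
      have h6 := mul_le_mul_of_nonneg_left h5 (by positivity : 0 ≤ 1 / ε)
      linarith
    · have h1 : nc y = 1 := ind_true hU
      rw [h1]
      have h2 : ∑ c ∈ C, r c * |φ * τ * S y c - P c| ≤ 3 := by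
        have h3 : ∑ c ∈ C, r c * |φ * τ * S y c - P c| ≤
            ∑ c ∈ C, (φ * τ * (r c * S y c) + r c) := by
          refine sum_le_sum fun c _ => ?_
          have h5 : 0 ≤ φ * τ * S y c := mul_nonneg (by positivity)
            (exk_nonneg hp fun v _ => mul_nonneg (Wd_nonneg hΨ _ _ _ _) (ind_nonneg _))
          have h6 : |φ * τ * S y c - P c| ≤ φ * τ * S y c + 1 := by
            rw [abs_le]
            constructor
            · linarith [hP1 c]
            · linarith [hP0 c]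
          calc r c * |φ * τ * S y c - P c| ≤ r c * (φ * τ * S y c + 1) :=
                mul_le_mul_of_nonneg_left h6 (hr c)
            _ = _ := by ring
        refine h3.trans ?_
        rw [sum_add_distrib, hC1, ← mul_sum]
        have h5 : ∑ c ∈ C, r c * S y c ≤ 1 / (φ * τ) + η / τ := by
          have h6 : ∑ c ∈ C, r c * S y c = exk (n + 1) X p (fun v => ∑ c ∈ C,
              r c * (Wd Ψ A G c (∏ i, v i) *
              ind (A * ∏ i, v i - G * c ∈ q₀ * Ideal.span {∏ i, y i}))) := by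
            rw [exk_sum]
            exact sum_congr rfl fun c _ => (exk_mul_left _ _).symm
          rw [h6]
          calc exk (n + 1) X p (fun v => ∑ c ∈ C, r c * (Wd Ψ A G c (∏ i, v i) *
              ind (A * ∏ i, v i - G * c ∈ q₀ * Ideal.span {∏ i, y i})))
              ≤ exk (n + 1) X p (fun _ => 1 / (φ * τ) + η / τ) := by
                refine exk_mono hp fun v hv => ?_
                obtain ⟨κ, hκ, hκc⟩ := shift_class (hd y hy) (f := ∏ i, v i)
                  (cop_prod fun i => hX _ (hv i))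
                have h7 := (hCC y hy).zero κ hκ
                rw [← hτ] at h7
                have h8 := (abs_le.1 h7).2
                have h9 : ∑ c ∈ C, r c * (Wd Ψ A G c (∏ i, v i) *
                    ind (A * ∏ i, v i - G * c ∈ q₀ * Ideal.span {∏ i, y i})) ≤
                    ∑ c ∈ C, r c * ind (c - κ ∈ q₀ * Ideal.span {∏ i, y i}) := by
                  refine sum_le_sum fun c _ => mul_le_mul_of_nonneg_left ?_ (hr c)
                  rw [hκc]
                  exact mul_le_of_le_one_left (ind_nonneg _) (Wd_le_one hΨ _ _ _ _)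
                linarith
            _ = _ := exk_const hX1 _
        have h6 : φ * τ * ∑ c ∈ C, r c * S y c ≤ 1 + φ * η := by
          have h7 := mul_le_mul_of_nonneg_left h5 hB0.le
          have h8 : φ * τ * (1 / (φ * τ) + η / τ) = 1 + φ * η := by
            field_simp
          linarith
        linarith
      have h3 : 0 ≤ 1 / ε * (∑ c ∈ C, r c * ((φ * τ) * Q y c - P c ^ 2 + 1) +
        η * φ ^ 2 * (τ * R y) + η * (2 * φ + 1)) := by
        have h5 : 0 ≤ ∑ c ∈ C, r c * ((φ * τ) * Q y c - P c ^ 2 + 1) := by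
          refine sum_nonneg fun c _ => mul_nonneg (hr c) ?_
          have h6 : 0 ≤ (φ * τ) * Q y c := mul_nonneg (by positivity) (hQ0 y c)
          have h7 : P c ^ 2 ≤ 1 := pow_le_one₀ (hP0 c) (hP1 c)
          linarith
        have := hR0 y
        positivity
      linarith
  refine (exk_mono hq hpt).trans ?_
  rw [exk_add, exk_add, exk_mul_left, exk_const hY1, exk_mul_left, exk_add, exk_add,
    exk_const hY1, exk_mul_left, exk_sum]
  have b1 : ∑ c ∈ C, exk k Y q (fun y => r c *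
      ((φ * nm (Ideal.span {∏ i, y i})) * Q y c - P c ^ 2 + nc y)) ≤
      φ ^ 2 * ε' + (2 * φ * C₃ + φ ^ 2 * C₃ ^ 2) / D + exk k Y q nc := by
    have c1 : ∀ c, exk k Y q (fun y => r c *
      ((φ * nm (Ideal.span {∏ i, y i})) * Q y c - P c ^ 2 + nc y)) ≤
      r c * (φ ^ 2 * ε' + (2 * φ * C₃ + φ ^ 2 * C₃ ^ 2) / D + exk k Y q nc) := by
      intro c
      rw [exk_mul_left, exk_add, exk_sub, exk_const hY1]
      refine mul_le_mul_of_nonneg_left ?_ (hr c)
      have := sieve_use (k := k) hΨ hq₀ hqM hD hX hp hX1 hq hC₃ hE hS G A c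
      linarith
    refine (sum_le_sum fun c _ => c1 c).trans (le_of_eq ?_)
    rw [← sum_mul, hC1, one_mul]
  have b2 : η * φ ^ 2 * exk k Y q (fun y => nm (Ideal.span {∏ i, y i}) * R y) ≤
      η * φ ^ 2 * 2 := mul_le_mul_of_nonneg_left hS1 (by positivity)
  have b5 : 1 / ε * (∑ c ∈ C, exk k Y q (fun y => r c *
      ((φ * nm (Ideal.span {∏ i, y i})) * Q y c - P c ^ 2 + nc y)) +
      η * φ ^ 2 * exk k Y q (fun y => nm (Ideal.span {∏ i, y i}) * R y) + η * (2 * φ + 1)) ≤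
      1 / ε * (φ ^ 2 * ε' + (2 * φ * C₃ + φ ^ 2 * C₃ ^ 2) / D + exk k Y q nc +
        η * (2 * φ ^ 2 + 2 * φ + 1)) := by
    refine mul_le_mul_of_nonneg_left ?_ (by positivity)
    linarith
  linarith

end Pool.Agent.T9h91.NF
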