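import Pool.Agent.T9h11.NF.Spec2

/-!
# Elementary properties of `exk`, `pr`, `ind`
-/

set_option autoImplicit false

namespace Pool.Agent.T9h91.NF

open Finset NumberField Pool.Agent.T9h57.QD Pool.Agent.T9h11.NF

theorem ind_nonneg (p : Prop) : 0 ≤ ind p := by
  unfold ind; split_ifs <;> norm_num

theorem ind_le_one (p : Prop) : ind p ≤ 1 := by
  unfold ind; split_ifs <;> norm_num

theorem ind_true {p : Prop} (h : p) : ind p = 1 := by
  unfold ind; rw [if_pos h]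

theorem ind_false {p : Prop} (h : ¬ p) : ind p = 0 := by
  unfold ind; rw [if_neg h]

theorem ind_and (p q : Prop) : ind (p ∧ q) = ind p * ind q := by
  by_cases hp : p <;> by_cases hq : q <;> simp [ind, hp, hq]

theorem ind_mono {p q : Prop} (h : p → q) : ind p ≤ ind q := by
  by_cases hp : p
  · rw [ind_true hp, ind_true (h hp)]
  · rw [ind_false hp]; exact ind_nonneg _

theorem ind_congr {p q : Prop} (h : p ↔ q) : ind p = ind q := by
  rw [propext h]

theorem ind_sq (p : Prop) : ind p * ind p = ind p := by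
  by_cases hp : p <;> simp [ind, hp]

variable {K : Type} [Field K] [NumberField K]

section exs

variable {n : ℕ} {S : Finset (𝓞 K)} {p : 𝓞 K → ℝ}

theorem mu_nonneg (hp : ∀ x, 0 ≤ p x) (x : Fin n → 𝓞 K) : 0 ≤ ∏ i, p (x i) :=
  prod_nonneg fun i _ => hp (x i)

theorem exk_eq (n : ℕ) (S : Finset (𝓞 K)) (p : 𝓞 K → ℝ) (f : (Fin n → 𝓞 K) → ℝ) :
    exk n S p f = ∑ x ∈ Fintype.piFinset (fun _ : Fin n => S), (∏ i, p (x i)) * f x := rfl

theorem exk_mono (hp : ∀ x, 0 ≤ p x) {f g : (Fin n → 𝓞 K) → ℝ}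
    (h : ∀ x, (∀ i, x i ∈ S) → f x ≤ g x) : exk n S p f ≤ exk n S p g := by
  unfold exk
  refine sum_le_sum fun x hx => mul_le_mul_of_nonneg_left (h x ?_) (mu_nonneg hp x)
  exact Fintype.mem_piFinset.1 hx

theorem exk_congr {f g : (Fin n → 𝓞 K) → ℝ} (h : ∀ x, (∀ i, x i ∈ S) → f x = g x) :
    exk n S p f = exk n S p g := by
  unfold exk
  refine sum_congr rfl fun x hx => ?_
  rw [h x (Fintype.mem_piFinset.1 hx)]

theorem exk_nonneg (hp : ∀ x, 0 ≤ p x) {f : (Fin n → 𝓞 K) → ℝ}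
    (h : ∀ x, (∀ i, x i ∈ S) → 0 ≤ f x) : 0 ≤ exk n S p f := by
  unfold exk
  exact sum_nonneg fun x hx => mul_nonneg (mu_nonneg hp x) (h x (Fintype.mem_piFinset.1 hx))

theorem exk_add (f g : (Fin n → 𝓞 K) → ℝ) :
    exk n S p (fun x => f x + g x) = exk n S p f + exk n S p g := by
  unfold exk
  rw [← sum_add_distrib]
  exact sum_congr rfl fun x _ => by ring

theorem exk_sub (f g : (Fin n → 𝓞 K) → ℝ) :
    exk n S p (fun x => f x - g x) = exk n S p f - exk n S p g := by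
  unfold exk
  rw [← sum_sub_distrib]
  exact sum_congr rfl fun x _ => by ring

theorem exk_mul_left (c : ℝ) (f : (Fin n → 𝓞 K) → ℝ) :
    exk n S p (fun x => c * f x) = c * exk n S p f := by
  unfold exk
  rw [mul_sum]
  exact sum_congr rfl fun x _ => by ring

theorem exk_sum {T : Type*} (s : Finset T) (f : T → (Fin n → 𝓞 K) → ℝ) :
    exk n S p (fun x => ∑ t ∈ s, f t x) = ∑ t ∈ s, exk n S p (f t) := by
  unfold exk
  simp_rw [mul_sum]
  exact sum_comm

theorem exk_const (h1 : ∑ x ∈ S, p x = 1) (c : ℝ) : exk n S p (fun _ => c) = c := by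
  unfold exk
  rw [← sum_mul, ← prod_univ_sum]
  simp [h1]

theorem exk_le_one (hp : ∀ x, 0 ≤ p x) (h1 : ∑ x ∈ S, p x = 1) {f : (Fin n → 𝓞 K) → ℝ}
    (hf : ∀ x, f x ≤ 1) : exk n S p f ≤ 1 := by
  calc exk n S p f ≤ exk n S p (fun _ => (1 : ℝ)) := exk_mono hp fun v _ => hf v
    _ = 1 := exk_const h1 1

theorem exk_succ (f : (Fin (n + 1) → 𝓞 K) → ℝ) :
    exk (n + 1) S p f = ∑ x ∈ S, p x * exk n S p (fun v => f (Fin.cons x v)) := by
  unfold exk
  simp_rw [mul_sum]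
  rw [sum_comm, ← sum_product' (Fintype.piFinset fun _ : Fin n => S) S
    (fun v x => p x * ((∏ i, p (v i)) * f (Fin.cons x v)))]
  refine sum_nbij' (fun v => (Fin.tail v, v 0)) (fun p => Fin.cons p.2 p.1) ?_ ?_ ?_ ?_ ?_
  · intro v hv
    rw [Fintype.mem_piFinset] at hv
    rw [mem_product, Fintype.mem_piFinset]
    exact ⟨fun i => hv i.succ, hv 0⟩
  · intro p hp
    rw [mem_product, Fintype.mem_piFinset] at hp
    rw [Fintype.mem_piFinset]
    intro i
    refine Fin.cases ?_ (fun i => ?_) i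
    · simpa using hp.2
    · simpa using hp.1 i
  · intro v _
    exact Fin.cons_self_tail v
  · intro p _
    simp
  · intro v _
    rw [Fin.prod_univ_succ]
    simp only [Fin.cons_self_tail]
    unfold Fin.tail
    ring

end exs

/-! ## weights -/

theorem nrm_nonneg (z : Sp K) : 0 ≤ nrm z := by
  unfold nrm
  exact prod_nonneg fun v _ => pow_nonneg (norm_nonneg _) _

theorem wl_nonneg {ρ : Sp K → ℝ} (hρ : Adm ρ) (D : ℝ) (x : 𝓞 K) : 0 ≤ wl ρ D x := by
  unfold wl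
  exact div_nonneg (hρ.1 _).1 (nrm_nonneg _)

theorem wu_nonneg {ρ : Sp K → ℝ} (hρ : Adm ρ) (D : ℝ) (x : 𝓞 K) : 0 ≤ wu ρ D x := by
  unfold wu
  exact (hρ.1 _).1

theorem pr_nonneg {f : 𝓞 K → ℝ} (hf : ∀ x, 0 ≤ f x) (S : Finset (𝓞 K)) (x : 𝓞 K) :
    0 ≤ pr f S x := by
  unfold pr
  exact div_nonneg (hf x) (sum_nonneg fun y _ => hf y)

theorem sum_pr {f : 𝓞 K → ℝ} {S : Finset (𝓞 K)} (h : 0 < ∑ y ∈ S, f y) :
    ∑ x ∈ S, pr f S x = 1 := by
  unfold pr
  rw [← sum_div]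
  exact div_self h.ne'

end Pool.Agent.T9h91.NF
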