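import Mathlib

/-!
# Geometry of numbers for number fields
-/

set_option autoImplicit false

namespace Pool.Agent.T9h91.NF

open Finset NumberField NumberField.mixedEmbedding Module
open scoped Classical

variable (K : Type*) [Field K] [NumberField K]

/-- degree. -/
noncomputable abbrev dg : ℕ := finrank ℚ K

variable {K}

/-- the Minkowski embedding of the integers. -/
noncomputable def em : 𝓞 K →+* mixedSpace K := (mixedEmbedding K).comp (algebraMap (𝓞 K) K)

/-- sup norm of the Minkowski embedding. -/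
noncomputable def nm (x : 𝓞 K) : ℝ := ‖em x‖

/-- `N(I)^(1/d)`. -/
noncomputable def rt (I : Ideal (𝓞 K)) : ℝ := (Ideal.absNorm I : ℝ) ^ ((1 : ℝ) / (dg K : ℝ))

theorem dg_pos : 0 < dg K := finrank_pos

theorem rt_nonneg (I : Ideal (𝓞 K)) : 0 ≤ rt I := by unfold rt; positivity

theorem rt_pow (I : Ideal (𝓞 K)) : rt I ^ dg K = Ideal.absNorm I := by
  unfold rt
  rw [← Real.rpow_natCast, ← Real.rpow_mul (by positivity)]
  have : ((dg K : ℕ) : ℝ) ≠ 0 := by exact_mod_cast dg_pos.ne'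
  rw [one_div_mul_cancel this, Real.rpow_one]

theorem absNorm_pos {I : Ideal (𝓞 K)} (hI : I ≠ ⊥) : 0 < Ideal.absNorm I :=
  Nat.pos_of_ne_zero (fun h => hI (Ideal.absNorm_eq_zero_iff.1 h))

theorem one_le_rt {I : Ideal (𝓞 K)} (hI : I ≠ ⊥) : 1 ≤ rt I := by
  unfold rt
  apply Real.one_le_rpow
  · exact_mod_cast absNorm_pos hI
  · positivity

theorem nm_nonneg (x : 𝓞 K) : 0 ≤ nm x := norm_nonneg _

theorem nm_add_le (x y : 𝓞 K) : nm (x + y) ≤ nm x + nm y := by
  unfold nm; rw [map_add]; exact norm_add_le _ _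

theorem nm_neg (x : 𝓞 K) : nm (-x) = nm x := by
  unfold nm; rw [map_neg]; exact norm_neg _

theorem nm_mul_le (x y : 𝓞 K) : nm (x * y) ≤ nm x * nm y := by
  unfold nm; rw [map_mul]; exact norm_mul_le _ _

theorem nm_sub_le (x y : 𝓞 K) : nm (x - y) ≤ nm x + nm y := by
  rw [sub_eq_add_neg]; exact (nm_add_le _ _).trans_eq (by rw [nm_neg])

theorem mixedSpace_norm_mul_le (x y : mixedSpace K) : ‖x * y‖ ≤ ‖x‖ * ‖y‖ := norm_mul_le x y

/-- **(G1)**. -/
theorem norm_le_pow (x : 𝓞 K) : ((Algebra.norm ℤ x).natAbs : ℝ) ≤ nm x ^ dg K := by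
  have h1 : mixedEmbedding.norm (mixedEmbedding K (x : K)) = |(Algebra.norm ℚ (x : K) : ℝ)| := by
    rw [norm_eq_norm]; push_cast; rfl
  have h2 : mixedEmbedding.norm (mixedEmbedding K (x : K)) ≤ nm x ^ dg K := by
    rw [mixedEmbedding.norm_apply]
    calc ∏ w : InfinitePlace K, normAtPlace w (mixedEmbedding K (x : K)) ^ w.mult
        ≤ ∏ w : InfinitePlace K, nm x ^ w.mult := by
          apply Finset.prod_le_prod
          · intro w _; exact pow_nonneg (normAtPlace_nonneg _ _) _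
          · intro w _
            apply pow_le_pow_left₀ (normAtPlace_nonneg _ _)
            unfold nm em
            rw [norm_eq_sup'_normAtPlace]
            exact Finset.le_sup' (fun w : InfinitePlace K => normAtPlace w (mixedEmbedding K (x : K)))
              (Finset.mem_univ w)
      _ = nm x ^ dg K := by
          rw [Finset.prod_pow_eq_pow_sum, InfinitePlace.sum_mult_eq]
  rw [h1] at h2
  refine le_trans (le_of_eq ?_) h2
  have h3 : (Algebra.norm ℚ (x : K)) = ((Algebra.norm ℤ x : ℤ) : ℚ) := by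
    exact (Algebra.coe_norm_int x).symm
  rw [h3]
  push_cast
  rw [← Int.cast_abs, Nat.cast_natAbs]

theorem absNorm_le_of_mem {I : Ideal (𝓞 K)} {x : 𝓞 K} (hx : x ∈ I) (h0 : x ≠ 0) :
    (Ideal.absNorm I : ℝ) ≤ nm x ^ dg K := by
  refine le_trans ?_ (norm_le_pow x)
  have h1 : Ideal.absNorm I ∣ Ideal.absNorm (Ideal.span {x}) :=
    Ideal.absNorm_dvd_absNorm_of_le ((Ideal.span_singleton_le_iff_mem _).2 hx)
  rw [Ideal.absNorm_span_singleton] at h1
  have h2 : (Algebra.norm ℤ x).natAbs ≠ 0 := by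
    rw [Int.natAbs_ne_zero]
    exact Algebra.norm_ne_zero_iff.2 h0
  exact_mod_cast Nat.le_of_dvd (Nat.pos_of_ne_zero h2) h1

theorem rt_le_of_mem {I : Ideal (𝓞 K)} {x : 𝓞 K} (hx : x ∈ I) (h0 : x ≠ 0) : rt I ≤ nm x := by
  have h := absNorm_le_of_mem hx h0
  rw [← rt_pow] at h
  exact le_of_pow_le_pow_left₀ dg_pos.ne' (nm_nonneg x) h

/-! ## coordinates -/

variable (K) in
/-- index type of a fixed integral basis. -/
abbrev Ib : Type _ := Free.ChooseBasisIndex ℤ (𝓞 K)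

/-- coordinates. -/
noncomputable def co (x : 𝓞 K) (i : Ib K) : ℤ := (RingOfIntegers.basis K).repr x i

theorem card_Ib : Fintype.card (Ib K) = dg K := by
  rw [← finrank_eq_card_chooseBasisIndex]
  exact RingOfIntegers.rank K

theorem co_add (x y : 𝓞 K) (i : Ib K) : co (x + y) i = co x i + co y i := by simp [co]
theorem co_neg (x : 𝓞 K) (i : Ib K) : co (-x) i = - co x i := by simp [co]
theorem co_sub (x y : 𝓞 K) (i : Ib K) : co (x - y) i = co x i - co y i := by simp [co]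

theorem co_sum (x : 𝓞 K) : x = ∑ i, co x i • RingOfIntegers.basis K i :=
  ((RingOfIntegers.basis K).sum_repr x).symm

theorem co_inj {x y : 𝓞 K} (h : co x = co y) : x = y := by
  rw [co_sum x, co_sum y, h]

theorem co_mk (n : Ib K → ℤ) (i : Ib K) : co (∑ i, n i • RingOfIntegers.basis K i) i = n i := by
  unfold co
  rw [Basis.repr_sum_self]

variable (K) in
/-- norm equivalence. -/
theorem exists_equiv : ∃ C : ℝ, 1 ≤ C ∧ (∀ (x : 𝓞 K) (i : Ib K), |(co x i : ℝ)| ≤ C * nm x) ∧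
    ∀ (x : 𝓞 K) (B : ℝ), 0 ≤ B → (∀ i, |(co x i : ℝ)| ≤ B) → nm x ≤ C * B := by
  classical
  let b := latticeBasis K
  have hco : ∀ (x : 𝓞 K) (i : Ib K), b.repr (mixedEmbedding K (x : K)) i = (co x i : ℝ) := by
    intro x i
    rw [latticeBasis_repr_apply]
    have := integralBasis_repr_apply K x i
    rw [this]
    rfl
  -- continuity of the coordinates
  obtain ⟨C1, hC1⟩ : ∃ C1 : ℝ, ∀ (z : mixedSpace K) (i : Ib K), |b.repr z i| ≤ C1 * ‖z‖ := by
    have h : ∀ i : Ib K, ∃ C : ℝ, 0 ≤ C ∧ ∀ z : mixedSpace K, |b.repr z i| ≤ C * ‖z‖ := by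
      intro i
      let l : mixedSpace K →L[ℝ] ℝ := LinearMap.toContinuousLinearMap (b.coord i)
      refine ⟨‖l‖, norm_nonneg _, fun z => ?_⟩
      exact l.le_opNorm z
    choose C hC0 hC using h
    refine ⟨∑ i, C i, fun z i => (hC i z).trans ?_⟩
    exact mul_le_mul_of_nonneg_right (Finset.single_le_sum (fun i _ => hC0 i) (Finset.mem_univ i))
      (norm_nonneg _)
  refine ⟨max (max C1 (∑ i, nm (RingOfIntegers.basis K i))) 1, le_max_right _ _, ?_, ?_⟩
  · intro x i
    rw [← hco]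
    refine (hC1 _ i).trans ?_
    change C1 * nm x ≤ _
    apply mul_le_mul_of_nonneg_right _ (nm_nonneg _)
    exact (le_max_left _ _).trans (le_max_left _ _)
  · intro x B hB hx
    have h1 : nm x ≤ ∑ i, |(co x i : ℝ)| * nm (RingOfIntegers.basis K i) := by
      conv_lhs => rw [co_sum x]
      unfold nm
      rw [map_sum]
      refine (norm_sum_le _ _).trans ?_
      apply Finset.sum_le_sum
      intro i _
      rw [map_zsmul, ← Int.cast_smul_eq_zsmul ℝ, _root_.norm_smul, Real.norm_eq_abs]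
    refine h1.trans ?_
    calc ∑ i, |(co x i : ℝ)| * nm (RingOfIntegers.basis K i)
        ≤ ∑ i, B * nm (RingOfIntegers.basis K i) :=
          Finset.sum_le_sum (fun i _ => mul_le_mul_of_nonneg_right (hx i) (nm_nonneg _))
      _ = (∑ i, nm (RingOfIntegers.basis K i)) * B := by rw [← Finset.mul_sum, mul_comm]
      _ ≤ _ := by
          apply mul_le_mul_of_nonneg_right _ hB
          exact (le_max_right _ _).trans (le_max_left _ _)

/-! ## small elements of ideals, covering -/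

variable (K) in
/-- **(G2a)** a nonzero element of size `≤ C N(I)^(1/d)`. -/
theorem exists_small : ∃ C : ℝ, 1 ≤ C ∧ ∀ I : Ideal (𝓞 K), I ≠ ⊥ →
    ∃ x ∈ I, x ≠ 0 ∧ nm x ≤ C * rt I := by
  obtain ⟨C, hC1, -, hC⟩ := exists_equiv K
  refine ⟨C, hC1, fun I hI => ?_⟩
  set m : ℕ := ⌊rt I⌋₊ with hm
  have hm1 : rt I < m + 1 := Nat.lt_floor_add_one _
  have hm2 : (m : ℝ) ≤ rt I := Nat.floor_le (rt_nonneg I)
  -- pigeonhole
  have hfin : Finite (𝓞 K ⧸ I) := Ideal.finiteQuotientOfFreeOfNeBot I hI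
  let _ := Fintype.ofFinite (𝓞 K ⧸ I)
  have hcard : Fintype.card (𝓞 K ⧸ I) < Fintype.card (Ib K → Fin (m + 1)) := by
    rw [Fintype.card_fun, Fintype.card_fin, card_Ib]
    have h1 : Ideal.absNorm I = Fintype.card (𝓞 K ⧸ I) := by
      rw [Ideal.absNorm_apply, Submodule.cardQuot_apply, Nat.card_eq_fintype_card]
    rw [← h1]
    have h2 : (Ideal.absNorm I : ℝ) < ((m + 1 : ℕ) : ℝ) ^ dg K := by
      rw [← rt_pow]
      exact pow_lt_pow_left₀ (by push_cast; exact hm1) (rt_nonneg I) dg_pos.ne'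
    exact_mod_cast h2
  obtain ⟨n, n', hne, heq⟩ := Fintype.exists_ne_map_eq_of_card_lt
    (fun n : Ib K → Fin (m + 1) =>
      (Ideal.Quotient.mk I (∑ i, ((n i : ℕ) : ℤ) • RingOfIntegers.basis K i))) hcard
  set x := ∑ i, ((n i : ℕ) : ℤ) • RingOfIntegers.basis K i with hx
  set y := ∑ i, ((n' i : ℕ) : ℤ) • RingOfIntegers.basis K i with hy
  refine ⟨x - y, Ideal.Quotient.eq.1 heq, ?_, ?_⟩
  · intro h
    have h1 : x = y := sub_eq_zero.1 h
    apply hne
    funext i
    have h2 := congrArg (fun z => co z i) h1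
    simp only [hx, hy, co_mk] at h2
    exact Fin.ext (by exact_mod_cast h2)
  · refine (hC (x - y) m (by positivity) ?_).trans (mul_le_mul_of_nonneg_left hm2 (by linarith))
    intro i
    rw [co_sub, hx, hy, co_mk, co_mk]
    have h1 : ((n i : ℕ) : ℤ) ≤ m := by exact_mod_cast Nat.lt_succ_iff.1 (n i).2
    have h2 : ((n' i : ℕ) : ℤ) ≤ m := by exact_mod_cast Nat.lt_succ_iff.1 (n' i).2
    have h3 : |((n i : ℕ) : ℤ) - ((n' i : ℕ) : ℤ)| ≤ (m : ℤ) := by
      rw [abs_le]; constructor <;> omega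
    exact_mod_cast h3

variable (K) in
/-- every point of the mixed space is close to an integer. -/
theorem exists_near : ∃ C : ℝ, 1 ≤ C ∧ ∀ z : mixedSpace K, ∃ x : 𝓞 K, ‖z - em x‖ ≤ C := by
  let b := latticeBasis K
  refine ⟨max (∑ i, ‖b i‖) 1, le_max_right _ _, fun z => ?_⟩
  have h1 := ZSpan.norm_fract_le b z
  have h2 : (ZSpan.floor b z : mixedSpace K) ∈ Submodule.span ℤ (Set.range b) :=
    (ZSpan.floor b z).2
  rw [mem_span_latticeBasis] at h2
  obtain ⟨x, hx⟩ := h2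
  refine ⟨x, le_trans (le_of_eq ?_) (h1.trans (le_max_left _ _))⟩
  rw [ZSpan.fract_apply, ← hx]
  rfl

variable (K) in
/-- **(G2b)** covering. -/
theorem exists_cover : ∃ C : ℝ, 1 ≤ C ∧ ∀ I : Ideal (𝓞 K), I ≠ ⊥ → ∀ z : mixedSpace K,
    ∃ x ∈ I, ‖z - em x‖ ≤ C * rt I := by
  obtain ⟨C₁, hC₁, h1⟩ := exists_small K
  obtain ⟨C₂, hC₂, h2⟩ := exists_near K
  refine ⟨C₁ * C₂, by nlinarith, fun I hI z => ?_⟩
  obtain ⟨a, haI, ha0, ha⟩ := h1 I hI
  obtain ⟨y, hy⟩ := h2 (z * mixedEmbedding K ((a : K)⁻¹))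
  refine ⟨a * y, I.mul_mem_right y haI, ?_⟩
  have ha0' : (a : K) ≠ 0 := by exact_mod_cast ha0
  have h3 : z - em (a * y) = em a * (z * mixedEmbedding K ((a : K)⁻¹) - em y) := by
    have h4 : em a * mixedEmbedding K ((a : K)⁻¹) = 1 := by
      change mixedEmbedding K (a : K) * mixedEmbedding K ((a : K)⁻¹) = 1
      rw [← map_mul, mul_inv_cancel₀ ha0', map_one]
    rw [map_mul]
    linear_combination (-z) * h4
  rw [h3]
  refine (norm_mul_le _ _).trans ?_
  have h5 : ‖em a‖ ≤ C₁ * rt I := ha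
  calc ‖em a‖ * ‖z * mixedEmbedding K ((a : K)⁻¹) - em y‖ ≤ (C₁ * rt I) * C₂ :=
        mul_le_mul h5 hy (norm_nonneg _) (by have := rt_nonneg I; positivity)
    _ = C₁ * C₂ * rt I := by ring

end Pool.Agent.T9h91.NF
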