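import Pool.Agent.T9h91.NF.Geom

/-!
# Geometry of numbers for number fields: packing, shift lemma
-/

set_option autoImplicit false

namespace Pool.Agent.T9h91.NF

open Finset NumberField NumberField.mixedEmbedding Module
open scoped Classical

variable {K : Type*} [Field K] [NumberField K]

theorem add_one_pow_le {a : ℝ} (ha : 0 ≤ a) (d : ℕ) : (a + 1) ^ d ≤ 2 ^ d * (a ^ d + 1) := by
  rcases le_total a 1 with h | h
  · have h1 : (a + 1) ^ d ≤ 2 ^ d := pow_le_pow_left₀ (by linarith) (by linarith) d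
    have h2 : 0 ≤ a ^ d := by positivity
    have h3 : (0 : ℝ) < 2 ^ d := by positivity
    nlinarith
  · have h1 : (a + 1) ^ d ≤ (2 * a) ^ d := pow_le_pow_left₀ (by linarith) (by linarith) d
    rw [mul_pow] at h1
    have h3 : (0 : ℝ) < 2 ^ d := by positivity
    nlinarith

variable (K) in
/-- **(G3)** packing. -/
theorem exists_pack : ∃ C : ℝ, 1 ≤ C ∧ ∀ I : Ideal (𝓞 K), I ≠ ⊥ → ∀ D : ℝ, 0 ≤ D →
    ∀ S : Finset (𝓞 K), (∀ x ∈ S, ∀ y ∈ S, x - y ∈ I) → (∀ x ∈ S, ∀ y ∈ S, nm (x - y) ≤ D) →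
    (S.card : ℝ) ≤ C * (D ^ dg K / (Ideal.absNorm I : ℝ) + 1) := by
  obtain ⟨C, hC1, hCa, hCb⟩ := exists_equiv K
  refine ⟨2 ^ dg K * (4 * C ^ 2 + 3) ^ dg K, ?_, fun I hI D hD S hS hSD => ?_⟩
  · have h1 : (1 : ℝ) ≤ 2 ^ dg K := one_le_pow₀ (by norm_num)
    have h2 : (1 : ℝ) ≤ (4 * C ^ 2 + 3) ^ dg K := one_le_pow₀ (by nlinarith)
    nlinarith
  have hr := one_le_rt hI
  have hCC : (1 : ℝ) ≤ 2 ^ dg K * (4 * C ^ 2 + 3) ^ dg K := by
    have h1 : (1 : ℝ) ≤ 2 ^ dg K := one_le_pow₀ (by norm_num)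
    have h2 : (1 : ℝ) ≤ (4 * C ^ 2 + 3) ^ dg K := one_le_pow₀ (by nlinarith)
    nlinarith
  rcases S.eq_empty_or_nonempty with rfl | ⟨x₀, hx₀⟩
  · simp only [Finset.card_empty, Nat.cast_zero]
    positivity
  set s : ℝ := rt I / (2 * C) with hs
  have hs0 : 0 < s := by positivity
  set m : ℕ := ⌈C * D / s⌉₊ with hm
  have hm1 : C * D / s ≤ m := Nat.le_ceil _
  have hm2 : (m : ℝ) < C * D / s + 1 := Nat.ceil_lt_add_one (by positivity)
  have hinj : S.card ≤ (Fintype.piFinset (fun _ : Ib K => Finset.Icc (-(m : ℤ)) m)).card := by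
    apply Finset.card_le_card_of_injOn (fun x i => ⌊(co (x - x₀) i : ℝ) / s⌋)
    · intro x hx
      simp only [Finset.mem_coe, Fintype.mem_piFinset, Finset.mem_Icc]
      intro i
      have h1 : |(co (x - x₀) i : ℝ)| ≤ C * D :=
        (hCa _ i).trans (mul_le_mul_of_nonneg_left (hSD x hx x₀ hx₀) (by linarith))
      have h2 : |(co (x - x₀) i : ℝ) / s| ≤ m := by
        rw [abs_div, abs_of_pos hs0]
        exact (div_le_div_of_nonneg_right h1 hs0.le).trans hm1
      rw [abs_le] at h2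
      constructor
      · apply Int.le_floor.2
        push_cast
        exact h2.1
      · have h3 : ((⌊(co (x - x₀) i : ℝ) / s⌋ : ℤ) : ℝ) ≤ m := (Int.floor_le _).trans h2.2
        exact_mod_cast h3
    · intro x hx y hy hxy
      by_contra hne
      have h0 : x - y ≠ 0 := sub_ne_zero.2 hne
      have h1 := rt_le_of_mem (hS x hx y hy) h0
      have h2 : nm (x - y) ≤ C * s := by
        apply hCb _ _ hs0.le
        intro i
        have h3 := congrFun hxy i
        simp only at h3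
        have h4 : (co (x - y) i : ℝ) = co (x - x₀) i - co (y - x₀) i := by
          rw [co_sub, co_sub, co_sub]; push_cast; ring
        rw [h4]
        have h5 := Int.abs_sub_lt_one_of_floor_eq_floor h3
        rw [← sub_div, abs_div, abs_of_pos hs0, div_lt_one hs0] at h5
        exact h5.le
      have h6 : C * s = rt I / 2 := by rw [hs]; field_simp
      linarith
  have hcard : (Fintype.piFinset (fun _ : Ib K => Finset.Icc (-(m : ℤ)) m)).card
      = (2 * m + 1) ^ dg K := by
    rw [Fintype.card_piFinset]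
    simp only [Int.card_Icc, Finset.prod_const, Finset.card_univ, card_Ib]
    congr 1
    omega
  rw [hcard] at hinj
  have h1 : (S.card : ℝ) ≤ (2 * m + 1) ^ dg K := by exact_mod_cast hinj
  refine h1.trans ?_
  have h2 : C * D / s = 2 * C ^ 2 * (D / rt I) := by rw [hs]; field_simp
  have h3 : (2 * (m : ℝ) + 1) ≤ (4 * C ^ 2 + 3) * (D / rt I + 1) := by
    rw [h2] at hm2
    have h4 : 0 ≤ D / rt I := by positivity
    nlinarith
  calc (2 * (m : ℝ) + 1) ^ dg K ≤ ((4 * C ^ 2 + 3) * (D / rt I + 1)) ^ dg K :=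
        pow_le_pow_left₀ (by positivity) h3 _
    _ = (4 * C ^ 2 + 3) ^ dg K * (D / rt I + 1) ^ dg K := mul_pow _ _ _
    _ ≤ (4 * C ^ 2 + 3) ^ dg K * (2 ^ dg K * ((D / rt I) ^ dg K + 1)) :=
        mul_le_mul_of_nonneg_left (add_one_pow_le (by positivity) _) (by positivity)
    _ = _ := by rw [div_pow, rt_pow]; ring

theorem finite_ball (B : ℝ) : {x : 𝓞 K | nm x ≤ B}.Finite := by
  obtain ⟨C, hC1, hCa, hCb⟩ := exists_equiv K
  set m : ℕ := ⌈C * B⌉₊ with hm
  have hm1 : C * B ≤ m := Nat.le_ceil _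
  apply Set.Finite.of_injOn (f := co) (t := Set.pi Set.univ (fun _ : Ib K => Set.Icc (-(m : ℤ)) m))
  · intro x hx i _
    have h1 : |(co x i : ℝ)| ≤ m :=
      (hCa x i).trans ((mul_le_mul_of_nonneg_left hx (by linarith)).trans hm1)
    have h2 : |co x i| ≤ (m : ℤ) := by exact_mod_cast h1
    exact abs_le.1 h2
  · intro x _ y _ h
    exact co_inj h
  · exact Set.Finite.pi' (fun i => Set.finite_Icc _ _) |>.subset (by intro f hf i; exact hf i trivial)

/-- sum of `f` over a residue class. -/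
noncomputable def cls (I : Ideal (𝓞 K)) (f : 𝓞 K → ℂ) (ρ : 𝓞 K) : ℂ :=
  ∑' x, if x - ρ ∈ I then f x else 0

theorem cls_congr (I : Ideal (𝓞 K)) (f : 𝓞 K → ℂ) {ρ ρ' : 𝓞 K} (h : ρ - ρ' ∈ I) :
    cls I f ρ = cls I f ρ' := by
  unfold cls
  congr 1
  funext x
  have : x - ρ ∈ I ↔ x - ρ' ∈ I := by
    constructor
    · intro h1
      have := I.add_mem h1 h
      simpa using this
    · intro h1
      have := I.sub_mem h1 h
      have h2 : x - ρ' - (ρ - ρ') = x - ρ := by ring
      rwa [h2] at this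
  simp only [this]

theorem summable_ite (p : 𝓞 K → Prop) {f : 𝓞 K → ℂ} {D : ℝ} (hf : ∀ x, f x ≠ 0 → nm x ≤ D) :
    Summable (fun x => if p x then f x else 0) := by
  apply summable_of_finite_support
  apply (finite_ball (K := K) D).subset
  intro x hx
  simp only [Function.mem_support, ne_eq, ite_eq_right_iff, Classical.not_imp] at hx
  exact hf x hx.2

/-- the whole sum is the sum over the classes. -/
theorem tsum_eq_sum_cls {I : Ideal (𝓞 K)} (hI : I ≠ ⊥) {f : 𝓞 K → ℂ} {D : ℝ}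
    (hf : ∀ x, f x ≠ 0 → nm x ≤ D) [Fintype (𝓞 K ⧸ I)] :
    ∑' x, f x = ∑ q : 𝓞 K ⧸ I, cls I f (Quotient.out q) := by
  unfold cls
  rw [← Summable.tsum_finsetSum (fun q _ => summable_ite _ hf)]
  congr 1
  funext x
  rw [Finset.sum_eq_single (Ideal.Quotient.mk I x)]
  · rw [if_pos]
    apply Ideal.Quotient.eq.1
    exact (Quotient.out_eq (Ideal.Quotient.mk I x)).symm
  · intro q _ hq
    rw [if_neg]
    intro h
    apply hq
    have h1 := Ideal.Quotient.eq.2 h
    rw [h1]
    exact (Quotient.out_eq q).symm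
  · intro h; exact absurd (Finset.mem_univ _) h

variable (K) in
/-- **(G4)** shift lemma. -/
theorem exists_shift : ∃ C : ℝ, 1 ≤ C ∧ ∀ (f : 𝓞 K → ℂ) (D B : ℝ), 1 ≤ D → 0 ≤ B →
    (∀ x, f x ≠ 0 → nm x ≤ D) →
    (∀ x y, ‖f x - f y‖ ≤ B * nm (x - y) / D ^ (dg K + 1)) →
    ∀ I : Ideal (𝓞 K), I ≠ ⊥ → rt I ≤ D → ∀ ρ : 𝓞 K,
    ‖cls I f ρ - (∑' x, f x) / (Ideal.absNorm I : ℂ)‖ ≤
      C * B * (rt I / (D * (Ideal.absNorm I : ℝ))) := by
  obtain ⟨C₁, hC₁, h1⟩ := exists_pack K
  obtain ⟨C₂, hC₂, h2⟩ := exists_cover K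
  set C₃ : ℝ := C₁ * ((2 * (1 + C₂)) ^ dg K + 1) with hC₃
  have hC₃1 : 1 ≤ C₃ := by
    have : (0 : ℝ) ≤ (2 * (1 + C₂)) ^ dg K := by positivity
    nlinarith
  refine ⟨C₃ * C₂, by nlinarith, fun f D B hD hB hf hL I hI hID ρ => ?_⟩
  have hN : (0 : ℝ) < Ideal.absNorm I := by exact_mod_cast absNorm_pos hI
  have hr := one_le_rt hI
  have hND : (Ideal.absNorm I : ℝ) ≤ D ^ dg K := by
    rw [← rt_pow]; exact pow_le_pow_left₀ (rt_nonneg I) hID _
  -- two classes
  have key : ∀ ρ' : 𝓞 K, ‖cls I f ρ - cls I f ρ'‖ ≤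
      C₃ * C₂ * B * (rt I / (D * (Ideal.absNorm I : ℝ))) := by
    intro ρ'
    obtain ⟨z, hzI, hz⟩ := h2 I hI (em (ρ' - ρ))
    set δ : 𝓞 K := ρ' - ρ - z with hδ
    have hδ1 : nm δ ≤ C₂ * rt I := by
      refine le_trans (le_of_eq ?_) hz
      unfold nm
      rw [hδ, map_sub]
    have hsh : cls I f ρ' = ∑' x, if x - ρ ∈ I then f (x + δ) else 0 := by
      unfold cls
      rw [← (Equiv.addRight δ).tsum_eq]
      congr 1
      funext x
      have : x + δ - ρ' ∈ I ↔ x - ρ ∈ I := by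
        have h3 : x + δ - ρ' = x - ρ - z := by rw [hδ]; ring
        rw [h3]
        constructor
        · intro h4
          have := I.add_mem h4 hzI
          simpa using this
        · intro h4; exact I.sub_mem h4 hzI
      simp only [Equiv.coe_addRight, this]
    have hf2 : ∀ x, f (x + δ) ≠ 0 → nm x ≤ D + C₂ * rt I := by
      intro x hx
      have h3 := hf _ hx
      have h4 : nm x ≤ nm (x + δ) + nm δ := by
        have := nm_sub_le (x + δ) δ
        simpa using this
      linarith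
    have hsub : cls I f ρ - cls I f ρ' =
        ∑' x, ((if x - ρ ∈ I then f x else 0) - (if x - ρ ∈ I then f (x + δ) else 0)) := by
      rw [hsh, Summable.tsum_sub]
      · rfl
      · exact summable_ite _ hf
      · exact summable_ite (f := fun x => f (x + δ)) _ hf2
    set T : Finset (𝓞 K) := (finite_ball (K := K) (D + C₂ * rt I)).toFinset.filter
      (fun x => x - ρ ∈ I) with hT
    have hzero : ∀ x ∉ T,
        ((if x - ρ ∈ I then f x else 0) - (if x - ρ ∈ I then f (x + δ) else 0)) = 0 := by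
      intro x hx
      by_cases h3 : x - ρ ∈ I
      · have h4 : ¬ nm x ≤ D + C₂ * rt I := by
          intro h5
          apply hx
          rw [hT, Finset.mem_filter, Set.Finite.mem_toFinset]
          exact ⟨h5, h3⟩
        have h5 : f x = 0 := by
          by_contra h6
          apply h4
          have := hf x h6
          have h7 : 0 ≤ C₂ * rt I := by positivity
          linarith
        have h6 : f (x + δ) = 0 := by
          by_contra h6
          exact h4 (hf2 x h6)
        simp [h5, h6]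
      · simp [h3]
    rw [hsub, tsum_eq_sum hzero]
    have hTc : (T.card : ℝ) ≤ C₃ * (D ^ dg K / (Ideal.absNorm I : ℝ)) := by
      refine (h1 I hI (2 * (1 + C₂) * D) (by positivity) T ?_ ?_).trans ?_
      · intro x hx y hy
        rw [hT, Finset.mem_filter] at hx hy
        have := I.sub_mem hx.2 hy.2
        simpa using this
      · intro x hx y hy
        rw [hT, Finset.mem_filter, Set.Finite.mem_toFinset] at hx hy
        refine (nm_sub_le x y).trans ?_
        have h3 : nm x ≤ D + C₂ * rt I := hx.1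
        have h4 : nm y ≤ D + C₂ * rt I := hy.1
        have h5 : C₂ * rt I ≤ C₂ * D := mul_le_mul_of_nonneg_left hID (by linarith)
        linarith
      · rw [mul_pow, hC₃]
        have h3 : 1 ≤ D ^ dg K / (Ideal.absNorm I : ℝ) := by
          rw [le_div_iff₀ hN, one_mul]; exact hND
        calc C₁ * ((2 * (1 + C₂)) ^ dg K * D ^ dg K / (Ideal.absNorm I : ℝ) + 1)
            ≤ C₁ * ((2 * (1 + C₂)) ^ dg K * D ^ dg K / (Ideal.absNorm I : ℝ) +
                D ^ dg K / (Ideal.absNorm I : ℝ)) := by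
              apply mul_le_mul_of_nonneg_left _ (by linarith)
              linarith
          _ = _ := by ring
    calc ‖∑ x ∈ T, ((if x - ρ ∈ I then f x else 0) - (if x - ρ ∈ I then f (x + δ) else 0))‖
        ≤ ∑ x ∈ T, B * (C₂ * rt I) / D ^ (dg K + 1) := by
          refine (norm_sum_le _ _).trans (Finset.sum_le_sum ?_)
          intro x hx
          rw [hT, Finset.mem_filter] at hx
          rw [if_pos hx.2, if_pos hx.2]
          refine (hL x (x + δ)).trans ?_
          have h3 : nm (x - (x + δ)) = nm δ := by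
            rw [show x - (x + δ) = -δ by ring, nm_neg]
          rw [h3]
          apply div_le_div_of_nonneg_right _ (by positivity)
          exact mul_le_mul_of_nonneg_left hδ1 hB
      _ = T.card * (B * (C₂ * rt I) / D ^ (dg K + 1)) := by
          rw [Finset.sum_const, nsmul_eq_mul]
      _ ≤ C₃ * (D ^ dg K / (Ideal.absNorm I : ℝ)) * (B * (C₂ * rt I) / D ^ (dg K + 1)) :=
          mul_le_mul_of_nonneg_right hTc (by positivity)
      _ = _ := by
          rw [pow_succ]
          have : D ^ dg K ≠ 0 := by positivity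
          field_simp
  have hfin : Finite (𝓞 K ⧸ I) := Ideal.finiteQuotientOfFreeOfNeBot I hI
  let _ := Fintype.ofFinite (𝓞 K ⧸ I)
  have hcard : Ideal.absNorm I = Fintype.card (𝓞 K ⧸ I) := by
    rw [Ideal.absNorm_apply, Submodule.cardQuot_apply, Nat.card_eq_fintype_card]
  have hNc : (Ideal.absNorm I : ℂ) ≠ 0 := by
    exact_mod_cast (absNorm_pos hI).ne'
  have havg : cls I f ρ - (∑' x, f x) / (Ideal.absNorm I : ℂ) =
      (∑ q : 𝓞 K ⧸ I, (cls I f ρ - cls I f (Quotient.out q))) / (Ideal.absNorm I : ℂ) := by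
    rw [Finset.sum_sub_distrib, ← tsum_eq_sum_cls hI hf, Finset.sum_const, Finset.card_univ,
      ← hcard, nsmul_eq_mul, sub_div, mul_div_cancel_left₀ _ hNc]
  rw [havg, norm_div]
  have h3 : ‖(Ideal.absNorm I : ℂ)‖ = (Ideal.absNorm I : ℝ) := by simp
  rw [h3, div_le_iff₀ hN]
  calc ‖∑ q : 𝓞 K ⧸ I, (cls I f ρ - cls I f (Quotient.out q))‖
      ≤ ∑ q : 𝓞 K ⧸ I, C₃ * C₂ * B * (rt I / (D * (Ideal.absNorm I : ℝ))) :=
        (norm_sum_le _ _).trans (Finset.sum_le_sum (fun q _ => key _))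
    _ = _ := by
        rw [Finset.sum_const, Finset.card_univ, ← hcard, nsmul_eq_mul]
        ring

end Pool.Agent.T9h91.NF
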