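import Mathlib

/-!
# `CoreSOf`, part 2: the abstract variance bound
-/

set_option autoImplicit false

namespace Pool.Agent.T9h91.NF

open Finset

theorem var_bound {ι κ : Type} (V : Finset ι) (μ : ι → ℝ) (hμ : ∀ v, 0 ≤ μ v)
    (hμ1 : ∑ v ∈ V, μ v = 1) (C I0 : Finset κ) (W I : κ → ι → ℝ) (E : ι → ι → ℝ)
    (B γ C₁ : ℝ) (hB : 0 < B)
    (h11 : ∀ v ∈ V, ∀ v' ∈ V, ∑ c ∈ C, W c v * W c v' * (I c v * I c v') ≤
      E v v' * ((∑ c ∈ I0, W c v * W c v') * γ / B + C₁))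
    (h10 : ∀ v ∈ V, ∀ v' ∈ V, (∑ c ∈ I0, W c v * W c v') * γ / B - C₁ ≤
      ∑ c ∈ C, W c v * W c v' * I c v)
    (h00 : ∀ v ∈ V, ∀ v' ∈ V, ∑ c ∈ C, W c v * W c v' ≤ (∑ c ∈ I0, W c v * W c v') * γ + C₁) :
    ∑ c ∈ C, (B * (∑ v ∈ V, μ v * (W c v * I c v)) - ∑ v ∈ V, μ v * W c v) ^ 2 ≤
      γ * ∑ c ∈ I0, (B * (∑ v ∈ V, ∑ v' ∈ V, μ v * μ v' * (W c v * W c v' * E v v')) -
        (∑ v ∈ V, μ v * W c v) ^ 2) +
      C₁ * B ^ 2 * (∑ v ∈ V, ∑ v' ∈ V, μ v * μ v' * E v v') + 2 * C₁ * B + C₁ := by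
  have e1 : ∀ c, (B * (∑ v ∈ V, μ v * (W c v * I c v)) - ∑ v ∈ V, μ v * W c v) ^ 2 =
      ∑ v ∈ V, ∑ v' ∈ V, μ v * μ v' * (B ^ 2 * (W c v * W c v' * (I c v * I c v')) -
        B * (W c v * W c v' * I c v) - B * (W c v' * W c v * I c v') + W c v * W c v') := by
    intro c
    have e2 : B * (∑ v ∈ V, μ v * (W c v * I c v)) - ∑ v ∈ V, μ v * W c v =
        ∑ v ∈ V, μ v * (W c v * (B * I c v - 1)) := by
      rw [mul_sum, ← sum_sub_distrib]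
      exact sum_congr rfl fun v _ => by ring
    rw [e2, sq, sum_mul_sum]
    exact sum_congr rfl fun v _ => sum_congr rfl fun v' _ => by ring
  have e3 : ∑ c ∈ C, (B * (∑ v ∈ V, μ v * (W c v * I c v)) - ∑ v ∈ V, μ v * W c v) ^ 2 =
      ∑ v ∈ V, ∑ v' ∈ V, μ v * μ v' * (B ^ 2 * (∑ c ∈ C, W c v * W c v' * (I c v * I c v')) -
        B * (∑ c ∈ C, W c v * W c v' * I c v) - B * (∑ c ∈ C, W c v' * W c v * I c v') +
        ∑ c ∈ C, W c v * W c v') := by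
    simp_rw [e1]
    rw [sum_comm]
    refine sum_congr rfl fun v _ => ?_
    rw [sum_comm]
    refine sum_congr rfl fun v' _ => ?_
    rw [← mul_sum, sum_add_distrib, sum_sub_distrib, sum_sub_distrib, ← mul_sum, ← mul_sum,
      ← mul_sum]
  rw [e3]
  have e4 : ∀ v ∈ V, ∀ v' ∈ V, μ v * μ v' * (B ^ 2 * (∑ c ∈ C, W c v * W c v' * (I c v * I c v')) -
        B * (∑ c ∈ C, W c v * W c v' * I c v) - B * (∑ c ∈ C, W c v' * W c v * I c v') +
        ∑ c ∈ C, W c v * W c v') ≤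
      μ v * μ v' * (γ * (B * ((∑ c ∈ I0, W c v * W c v') * E v v') - ∑ c ∈ I0, W c v * W c v') +
        C₁ * B ^ 2 * E v v' + 2 * C₁ * B + C₁) := by
    intro v hv v' hv'
    refine mul_le_mul_of_nonneg_left ?_ (mul_nonneg (hμ v) (hμ v'))
    have a1 := mul_le_mul_of_nonneg_left (h11 v hv v' hv') (sq_nonneg B)
    have a2 := mul_le_mul_of_nonneg_left (h10 v hv v' hv') hB.le
    have a3 := mul_le_mul_of_nonneg_left (h10 v' hv' v hv) hB.le
    have a4 := h00 v hv v' hv'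
    have s1 : ∑ c ∈ I0, W c v' * W c v = ∑ c ∈ I0, W c v * W c v' :=
      sum_congr rfl fun c _ => mul_comm _ _
    rw [s1] at a3
    have b1 : B ^ 2 * (E v v' * ((∑ c ∈ I0, W c v * W c v') * γ / B + C₁)) =
        B * (∑ c ∈ I0, W c v * W c v') * γ * E v v' + C₁ * B ^ 2 * E v v' := by
      field_simp
    have b2 : B * ((∑ c ∈ I0, W c v * W c v') * γ / B - C₁) =
        (∑ c ∈ I0, W c v * W c v') * γ - B * C₁ := by
      field_simp
    rw [b1] at a1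
    rw [b2] at a2 a3
    nlinarith [a1, a2, a3, a4]
  refine (sum_le_sum fun v hv => sum_le_sum fun v' hv' => e4 v hv v' hv').trans (le_of_eq ?_)
  have f1 : ∀ v v', μ v * μ v' * (γ * (B * ((∑ c ∈ I0, W c v * W c v') * E v v') -
      ∑ c ∈ I0, W c v * W c v') + C₁ * B ^ 2 * E v v' + 2 * C₁ * B + C₁) =
      γ * (B * (∑ c ∈ I0, μ v * μ v' * (W c v * W c v' * E v v')) -
        ∑ c ∈ I0, (μ v * W c v) * (μ v' * W c v')) +
      C₁ * B ^ 2 * (μ v * μ v' * E v v') + (2 * C₁ * B + C₁) * (μ v * μ v') := by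
    intro v v'
    have g1 : ∑ c ∈ I0, μ v * μ v' * (W c v * W c v' * E v v') =
        μ v * μ v' * ((∑ c ∈ I0, W c v * W c v') * E v v') := by
      rw [sum_mul, mul_sum]
    have g2 : ∑ c ∈ I0, (μ v * W c v) * (μ v' * W c v') =
        μ v * μ v' * ∑ c ∈ I0, W c v * W c v' := by
      rw [mul_sum]
      exact sum_congr rfl fun c _ => by ring
    rw [g1, g2]
    ring
  have f2 : ∀ (a b c : ι → ι → ℝ) (x y z : ℝ), ∑ v ∈ V, ∑ v' ∈ V, (x * a v v' + y * b v v' + z * c v v') =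
      x * (∑ v ∈ V, ∑ v' ∈ V, a v v') + y * (∑ v ∈ V, ∑ v' ∈ V, b v v') +
        z * (∑ v ∈ V, ∑ v' ∈ V, c v v') := by
    intro a b c x y z
    simp only [sum_add_distrib, mul_sum]
  have f3 : ∑ v ∈ V, ∑ v' ∈ V, μ v * μ v' * (γ * (B * ((∑ c ∈ I0, W c v * W c v') * E v v') -
      ∑ c ∈ I0, W c v * W c v') + C₁ * B ^ 2 * E v v' + 2 * C₁ * B + C₁) =
      ∑ v ∈ V, ∑ v' ∈ V, (γ * (B * (∑ c ∈ I0, μ v * μ v' * (W c v * W c v' * E v v')) -
        ∑ c ∈ I0, (μ v * W c v) * (μ v' * W c v')) +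
      C₁ * B ^ 2 * (μ v * μ v' * E v v') + (2 * C₁ * B + C₁) * (μ v * μ v')) :=
    sum_congr rfl fun v _ => sum_congr rfl fun v' _ => f1 v v'
  rw [f3, f2]
  have g3 : ∑ v ∈ V, ∑ v' ∈ V, μ v * μ v' = 1 := by
    rw [← sum_mul_sum, hμ1, one_mul]
  have h1 : ∑ v ∈ V, ∑ v' ∈ V, ∑ c ∈ I0, μ v * μ v' * (W c v * W c v' * E v v') =
      ∑ c ∈ I0, ∑ v ∈ V, ∑ v' ∈ V, μ v * μ v' * (W c v * W c v' * E v v') := by
    symm
    rw [sum_comm]
    refine sum_congr rfl fun v _ => ?_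
    rw [sum_comm]
  have h2 : ∑ v ∈ V, ∑ v' ∈ V, ∑ c ∈ I0, (μ v * W c v) * (μ v' * W c v') =
      ∑ c ∈ I0, (∑ v ∈ V, μ v * W c v) ^ 2 := by
    simp_rw [sq, sum_mul_sum]
    symm
    rw [sum_comm]
    refine sum_congr rfl fun v _ => ?_
    rw [sum_comm]
  have g4 : ∑ v ∈ V, ∑ v' ∈ V, (B * (∑ c ∈ I0, μ v * μ v' * (W c v * W c v' * E v v')) -
        ∑ c ∈ I0, (μ v * W c v) * (μ v' * W c v')) =
      ∑ c ∈ I0, (B * (∑ v ∈ V, ∑ v' ∈ V, μ v * μ v' * (W c v * W c v' * E v v')) -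
        (∑ v ∈ V, μ v * W c v) ^ 2) := by
    have k1 : ∑ v ∈ V, ∑ v' ∈ V, (B * (∑ c ∈ I0, μ v * μ v' * (W c v * W c v' * E v v')) -
        ∑ c ∈ I0, (μ v * W c v) * (μ v' * W c v')) =
        B * (∑ v ∈ V, ∑ v' ∈ V, ∑ c ∈ I0, μ v * μ v' * (W c v * W c v' * E v v')) -
        ∑ v ∈ V, ∑ v' ∈ V, ∑ c ∈ I0, (μ v * W c v) * (μ v' * W c v') := by
      rw [mul_sum, ← sum_sub_distrib]
      refine sum_congr rfl fun v _ => ?_
      rw [mul_sum, ← sum_sub_distrib]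
    rw [k1, h1, h2, sum_sub_distrib, mul_sum]
  rw [g4, g3]
  ring

/-- the variance bound with weights. -/
theorem var_w {ι κ : Type} (V : Finset ι) (μ : ι → ℝ) (hμ : ∀ v, 0 ≤ μ v)
    (hμ1 : ∑ v ∈ V, μ v = 1) (C : Finset κ) (r : κ → ℝ) (hr : ∀ c, 0 ≤ r c) (W I : κ → ι → ℝ)
    (E : ι → ι → ℝ) (B e : ℝ) (hB : 0 < B) (he : 0 ≤ e)
    (h11 : ∀ v ∈ V, ∀ v' ∈ V, ∑ c ∈ C, r c * (W c v * W c v' * (I c v * I c v')) ≤
      E v v' * ((∑ c ∈ C, r c * (W c v * W c v')) / B + e))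
    (h10 : ∀ v ∈ V, ∀ v' ∈ V, (∑ c ∈ C, r c * (W c v * W c v')) / B - e ≤
      ∑ c ∈ C, r c * (W c v * W c v' * I c v)) :
    ∑ c ∈ C, r c * (B * (∑ v ∈ V, μ v * (W c v * I c v)) - ∑ v ∈ V, μ v * W c v) ^ 2 ≤
      ∑ c ∈ C, r c * (B * (∑ v ∈ V, ∑ v' ∈ V, μ v * μ v' * (W c v * W c v' * E v v')) -
        (∑ v ∈ V, μ v * W c v) ^ 2) +
      e * B ^ 2 * (∑ v ∈ V, ∑ v' ∈ V, μ v * μ v' * E v v') + 2 * e * B + e := by
  have hs : ∀ c, Real.sqrt (r c) * Real.sqrt (r c) = r c := fun c => Real.mul_self_sqrt (hr c)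
  have key : ∀ c (x y z : ℝ), Real.sqrt (r c) * x * (Real.sqrt (r c) * y) * z =
      r c * (x * y * z) := by
    intro c x y z
    have := hs c
    calc Real.sqrt (r c) * x * (Real.sqrt (r c) * y) * z =
        (Real.sqrt (r c) * Real.sqrt (r c)) * (x * y * z) := by ring
      _ = _ := by rw [this]
  have key2 : ∀ c (x y : ℝ), Real.sqrt (r c) * x * (Real.sqrt (r c) * y) = r c * (x * y) := by
    intro c x y
    have := key c x y 1
    simpa using this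
  have h := var_bound V μ hμ hμ1 C C (fun c v => Real.sqrt (r c) * W c v) I E B 1 e hB ?_ ?_ ?_
  · have e1 : ∀ c, (B * (∑ v ∈ V, μ v * (Real.sqrt (r c) * W c v * I c v)) -
        ∑ v ∈ V, μ v * (Real.sqrt (r c) * W c v)) ^ 2 =
        r c * (B * (∑ v ∈ V, μ v * (W c v * I c v)) - ∑ v ∈ V, μ v * W c v) ^ 2 := by
      intro c
      have a1 : ∑ v ∈ V, μ v * (Real.sqrt (r c) * W c v * I c v) =
          Real.sqrt (r c) * ∑ v ∈ V, μ v * (W c v * I c v) := by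
        rw [mul_sum]; exact sum_congr rfl fun v _ => by ring
      have a2 : ∑ v ∈ V, μ v * (Real.sqrt (r c) * W c v) =
          Real.sqrt (r c) * ∑ v ∈ V, μ v * W c v := by
        rw [mul_sum]; exact sum_congr rfl fun v _ => by ring
      rw [a1, a2]
      calc _ = (Real.sqrt (r c) * Real.sqrt (r c)) *
          (B * (∑ v ∈ V, μ v * (W c v * I c v)) - ∑ v ∈ V, μ v * W c v) ^ 2 := by ring
        _ = _ := by rw [hs c]
    have e2 : ∀ c, (B * (∑ v ∈ V, ∑ v' ∈ V, μ v * μ v' *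
        (Real.sqrt (r c) * W c v * (Real.sqrt (r c) * W c v') * E v v')) -
        (∑ v ∈ V, μ v * (Real.sqrt (r c) * W c v)) ^ 2) =
        r c * (B * (∑ v ∈ V, ∑ v' ∈ V, μ v * μ v' * (W c v * W c v' * E v v')) -
        (∑ v ∈ V, μ v * W c v) ^ 2) := by
      intro c
      have a1 : ∑ v ∈ V, ∑ v' ∈ V, μ v * μ v' *
          (Real.sqrt (r c) * W c v * (Real.sqrt (r c) * W c v') * E v v') =
          r c * ∑ v ∈ V, ∑ v' ∈ V, μ v * μ v' * (W c v * W c v' * E v v') := by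
        simp only [mul_sum]
        refine sum_congr rfl fun v _ => sum_congr rfl fun v' _ => ?_
        rw [key]; ring
      have a2 : ∑ v ∈ V, μ v * (Real.sqrt (r c) * W c v) =
          Real.sqrt (r c) * ∑ v ∈ V, μ v * W c v := by
        rw [mul_sum]; exact sum_congr rfl fun v _ => by ring
      rw [a1, a2, mul_pow, Real.sq_sqrt (hr c)]
      ring
    simp_rw [e1, e2, one_mul] at h
    exact h
  · intro v hv v' hv'
    simp_rw [key, key2, mul_one]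
    exact h11 v hv v' hv'
  · intro v hv v' hv'
    simp_rw [key, key2, mul_one]
    exact h10 v hv v' hv'
  · intro v hv v' hv'
    linarith

end Pool.Agent.T9h91.NF
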