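import Pool.Agent.T9h91.NF.Cop
import Pool.Agent.T9h91.NF.Var

/-!
# `CoreSOfK`: the second moment for fixed moduli
-/

set_option autoImplicit false

namespace Pool.Agent.T9h91.NF

open Finset NumberField Pool.Agent.T9h57.QD Pool.Agent.T9h11.NF

variable {K : Type} [Field K] [NumberField K]

/-- the window. -/
noncomputable def Wd (Ψ : Sp K → ℝ) (A G c f : 𝓞 K) : ℝ :=
  Ψ (E (((A * f : 𝓞 K) : K) / ((G * c : 𝓞 K) : K)))

theorem E_div (x y : K) : (E (x / y) : Sp K) = E x * (E y)⁻¹ := by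
  funext v
  have : (E (x / y) : Sp K) v = v.embedding (x / y) := rfl
  rw [this, map_div₀, div_eq_mul_inv]
  rfl

theorem E_inv (y : K) : (E (y⁻¹) : Sp K) = (E y)⁻¹ := by
  funext v
  have : (E (y⁻¹) : Sp K) v = v.embedding (y⁻¹) := rfl
  rw [this, map_inv₀]
  rfl

theorem Wd_eq (Ψ : Sp K → ℝ) (A G c f : 𝓞 K) :
    Wd Ψ A G c f = Ψ (E (((A * f : 𝓞 K) : K) / (G : K)) * (E (c : K))⁻¹) := by
  unfold Wd
  congr 1
  rw [E_div, E_div]
  push_cast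
  rw [map_mul E (G : K) (c : K)]
  funext v
  simp only [Pi.mul_apply, Pi.inv_apply, mul_inv]
  ring

theorem Wd_eq' (Ψ : Sp K → ℝ) (A G c f : 𝓞 K) :
    Wd Ψ A G c f = Ψ (E ((A : K) / ((G * c : 𝓞 K) : K)) * E (f : K)) := by
  unfold Wd
  congr 1
  rw [← map_mul]
  congr 1
  push_cast
  ring

theorem Wd_nonneg {Ψ : Sp K → ℝ} (hΨ : Adm Ψ) (A G c f : 𝓞 K) : 0 ≤ Wd Ψ A G c f := (hΨ.1 _).1

theorem Wd_le_one {Ψ : Sp K → ℝ} (hΨ : Adm Ψ) (A G c f : 𝓞 K) : Wd Ψ A G c f ≤ 1 := (hΨ.1 _).2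

/-- data for fixed `u`, `y`. -/
structure Dat (M q₀ τ : Ideal (𝓞 K)) (G A : 𝓞 K) : Prop where
  q0 : q₀ ≠ ⊥
  t0 : τ ≠ ⊥
  hqM : PD q₀ M
  tM : IsCoprime τ M
  Gq : cop G (q₀ * τ)
  Aq : cop A q₀

/-- counting hypothesis for the `c`-slot. -/
structure CC (Ψ : Sp K → ℝ) (C : Finset (𝓞 K)) (r : 𝓞 K → ℝ) (q₀ J : Ideal (𝓞 K)) (B e : ℝ) :
    Prop where
  two : ∀ (w w' : Sp K) (κ : 𝓞 K), cop κ q₀ →
    |∑ c ∈ C, r c * (Ψ (w * (E (c : K))⁻¹) * Ψ (w' * (E (c : K))⁻¹) * ind (c - κ ∈ J)) -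
      (∑ c ∈ C, r c * (Ψ (w * (E (c : K))⁻¹) * Ψ (w' * (E (c : K))⁻¹))) / B| ≤ e
  zero : ∀ κ : 𝓞 K, cop κ q₀ → |∑ c ∈ C, r c * ind (c - κ ∈ J) - 1 / B| ≤ e

theorem shift_class {M q₀ τ : Ideal (𝓞 K)} {G A : 𝓞 K} (hd : Dat M q₀ τ G A) {f : 𝓞 K}
    (hf : cop f M) : ∃ κ : 𝓞 K, cop κ q₀ ∧
      ∀ c : 𝓞 K, ind (A * f - G * c ∈ q₀ * τ) = ind (c - κ ∈ q₀ * τ) := by
  have hfq : cop f q₀ := cop_of_PD hd.q0 hd.hqM hf
  obtain ⟨κ, h1, h2⟩ := solve_mod hd.Gq (A * f)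
  refine ⟨κ, h2 q₀ Ideal.mul_le_left (cop_mul hd.Aq hfq), fun c => ind_congr ?_⟩
  constructor
  · intro h
    have h3 : G * (c - κ) ∈ q₀ * τ := by
      have : G * (c - κ) = -(A * f - G * c) - (G * κ - A * f) := by ring
      rw [this]
      exact (q₀ * τ).sub_mem ((q₀ * τ).neg_mem h) h1
    exact cop_cancel hd.Gq h3
  · intro h
    have : A * f - G * c = -(G * (c - κ)) - (G * κ - A * f) := by ring
    rw [this]
    exact (q₀ * τ).sub_mem ((q₀ * τ).neg_mem ((q₀ * τ).mul_mem_left _ h)) h1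

/-- the second moment for fixed `u`, `y`. -/
theorem second {M q₀ τ : Ideal (𝓞 K)} {G A : 𝓞 K} (hd : Dat M q₀ τ G A) (hAτ : cop A τ)
    {Ψ : Sp K → ℝ} {B e : ℝ} (hB : 0 < B) (he : 0 ≤ e)
    {C : Finset (𝓞 K)} {r : 𝓞 K → ℝ} (hr : ∀ c, 0 ≤ r c) (hC : CC Ψ C r q₀ (q₀ * τ) B e)
    (n : ℕ) {X : Finset (𝓞 K)} {p : 𝓞 K → ℝ} (hp : ∀ x, 0 ≤ p x) (hX : ∀ x ∈ X, cop x M)
    (hX1 : ∑ x ∈ X, p x = 1) :
    ∑ c ∈ C, r c * (B *
        exk n X p (fun v => Wd Ψ A G c (∏ i, v i) * ind (A * ∏ i, v i - G * c ∈ q₀ * τ)) -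
        exk n X p (fun v => Wd Ψ A G c (∏ i, v i))) ^ 2 ≤
      ∑ c ∈ C, r c * (B *
        exk n X p (fun v => exk n X p (fun v' => Wd Ψ A G c (∏ i, v i) *
          Wd Ψ A G c (∏ i, v' i) * ind (∏ i, v i - ∏ i, v' i ∈ q₀ * τ))) -
        (exk n X p (fun v => Wd Ψ A G c (∏ i, v i))) ^ 2) +
      e * B ^ 2 *
        exk n X p (fun v => exk n X p (fun v' => ind (∏ i, v i - ∏ i, v' i ∈ q₀ * τ))) +
      2 * e * B + e := by
  have hvM : ∀ v ∈ Fintype.piFinset (fun _ : Fin n => X), cop (∏ i, v i) M := fun v hv =>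
    cop_prod fun i => hX _ (Fintype.mem_piFinset.1 hv i)
  have hmain := var_w (Fintype.piFinset (fun _ : Fin n => X)) (fun v => ∏ i, p (v i))
    (fun v => mu_nonneg hp v)
    (by
      have := exk_const (n := n) hX1 1
      rw [exk_eq] at this
      simpa using this)
    C r hr (fun c v => Wd Ψ A G c (∏ i, v i))
    (fun c v => ind (A * ∏ i, v i - G * c ∈ q₀ * τ))
    (fun v v' => ind (∏ i, v i - ∏ i, v' i ∈ q₀ * τ)) B e hB he ?_ ?_
  · have e1 : ∀ c, exk n X p (fun v => exk n X p (fun v' => Wd Ψ A G c (∏ i, v i) *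
          Wd Ψ A G c (∏ i, v' i) * ind (∏ i, v i - ∏ i, v' i ∈ q₀ * τ))) =
        ∑ v ∈ Fintype.piFinset (fun _ : Fin n => X), ∑ v' ∈ Fintype.piFinset (fun _ : Fin n => X),
          (∏ i, p (v i)) * (∏ i, p (v' i)) * (Wd Ψ A G c (∏ i, v i) *
          Wd Ψ A G c (∏ i, v' i) * ind (∏ i, v i - ∏ i, v' i ∈ q₀ * τ)) := by
      intro c
      rw [exk_eq]
      refine sum_congr rfl fun v _ => ?_
      rw [exk_eq, mul_sum]
      exact sum_congr rfl fun v' _ => by ring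
    have e2 : exk n X p (fun v => exk n X p (fun v' => ind (∏ i, v i - ∏ i, v' i ∈ q₀ * τ))) =
        ∑ v ∈ Fintype.piFinset (fun _ : Fin n => X), ∑ v' ∈ Fintype.piFinset (fun _ : Fin n => X),
          (∏ i, p (v i)) * (∏ i, p (v' i)) * ind (∏ i, v i - ∏ i, v' i ∈ q₀ * τ) := by
      rw [exk_eq]
      refine sum_congr rfl fun v _ => ?_
      rw [exk_eq, mul_sum]
      exact sum_congr rfl fun v' _ => by ring
    simp_rw [e1]
    rw [e2]
    exact hmain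
  · intro v hv v' hv'
    obtain ⟨κ, hκ, hκc⟩ := shift_class hd (hvM v hv)
    by_cases hE : (∏ i, v i - ∏ i, v' i ∈ q₀ * τ)
    · rw [ind_true hE, one_mul]
      have h1 := hC.two (E (((A * ∏ i, v i : 𝓞 K) : K) / (G : K)))
        (E (((A * ∏ i, v' i : 𝓞 K) : K) / (G : K))) κ hκ
      simp_rw [← Wd_eq] at h1
      have h2 := (abs_le.1 h1).2
      have h3 : ∀ c, ind (A * ∏ i, v' i - G * c ∈ q₀ * τ) =
          ind (A * ∏ i, v i - G * c ∈ q₀ * τ) := fun c => ind_congr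
        ⟨fun h => by
          have h4 := (q₀ * τ).add_mem h ((q₀ * τ).mul_mem_left A hE)
          have h5 : A * ∏ i, v' i - G * c + A * (∏ i, v i - ∏ i, v' i) =
            A * ∏ i, v i - G * c := by ring
          rwa [h5] at h4,
        fun h => by
          have h4 := (q₀ * τ).sub_mem h ((q₀ * τ).mul_mem_left A hE)
          have h5 : A * ∏ i, v i - G * c - A * (∏ i, v i - ∏ i, v' i) =
            A * ∏ i, v' i - G * c := by ring
          rwa [h5] at h4⟩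
      simp_rw [h3, ind_sq, hκc]
      linarith
    · rw [ind_false hE, zero_mul]
      refine le_of_eq (sum_eq_zero fun c _ => ?_)
      by_cases h4 : (A * ∏ i, v i - G * c ∈ q₀ * τ)
      · by_cases h5 : (A * ∏ i, v' i - G * c ∈ q₀ * τ)
        · exfalso
          apply hE
          have h6 : cop A (q₀ * τ) := cop_mul_right.2 ⟨hd.Aq, hAτ⟩
          apply cop_cancel h6
          have h7 := (q₀ * τ).sub_mem h4 h5
          have h8 : A * (∏ i, v i - ∏ i, v' i) =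
            A * ∏ i, v i - G * c - (A * ∏ i, v' i - G * c) := by ring
          rwa [h8]
        · rw [ind_false h5]; ring
      · rw [ind_false h4]; ring
  · intro v hv v' hv'
    obtain ⟨κ, hκ, hκc⟩ := shift_class hd (hvM v hv)
    have h1 := hC.two (E (((A * ∏ i, v i : 𝓞 K) : K) / (G : K)))
        (E (((A * ∏ i, v' i : 𝓞 K) : K) / (G : K))) κ hκ
    simp_rw [← Wd_eq] at h1
    simp_rw [hκc]
    have h2 := (abs_le.1 h1).1
    linarith

end Pool.Agent.T9h91.NF
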