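import Pool.Agent.T9h91.NF.Sec

/-!
# `CoreSOfK`: use of the sieve bound
-/

set_option autoImplicit false

namespace Pool.Agent.T9h91.NF

open Finset NumberField Pool.Agent.T9h57.QD Pool.Agent.T9h11.NF

variable {K : Type} [Field K] [NumberField K]

/-- `P_κ ≤ p / φ(q₀) + C₃/D`. -/
theorem class_le {M q₀ : Ideal (𝓞 K)} {n : ℕ} {D : ℝ} {X : Finset (𝓞 K)} {p : 𝓞 K → ℝ}
    {Ψ : Sp K → ℝ} (hq₀ : q₀ ≠ ⊥) (hqM : PD q₀ M)
    (hX : ∀ x ∈ X, cop x M) (hp : ∀ x, 0 ≤ p x) (hX1 : ∑ x ∈ X, p x = 1) {C₃ : ℝ}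
    (hE : ∀ (κ : 𝓞 K) (w : Sp K), cop κ q₀ →
      |∑ x ∈ X, p x * Ψ (w * E (x : K)) * ind (x - κ ∈ q₀) -
      (∑ x ∈ X, p x * Ψ (w * E (x : K))) / phi q₀| ≤ C₃ / D)
    (κ : 𝓞 K) (hκ : cop κ q₀) (z : Sp K) :
    exk (n + 1) X p (fun v => Ψ (z * E ((∏ i, v i : 𝓞 K) : K)) * ind (∏ i, v i - κ ∈ q₀)) ≤
      exk (n + 1) X p (fun v => Ψ (z * E ((∏ i, v i : 𝓞 K) : K))) / phi q₀ + C₃ / D := by
  rw [exk_succ, exk_succ]
  have e1 : ∀ g : (Fin n → 𝓞 K) → 𝓞 K → ℝ, ∑ x ∈ X, p x * exk n X p (fun v => g v x) =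
      exk n X p (fun v => ∑ x ∈ X, p x * g v x) := by
    intro g
    rw [exk_sum]
    exact sum_congr rfl fun x _ => (exk_mul_left _ _).symm
  rw [e1 (fun v x => Ψ (z * E ((∏ i, (Fin.cons x v : Fin (n + 1) → 𝓞 K) i : 𝓞 K) : K)) *
    ind (∏ i, (Fin.cons x v : Fin (n + 1) → 𝓞 K) i - κ ∈ q₀))]
  rw [e1 (fun v x => Ψ (z * E ((∏ i, (Fin.cons x v : Fin (n + 1) → 𝓞 K) i : 𝓞 K) : K)))]
  have e2 : ∀ v : Fin n → 𝓞 K, (∀ i, v i ∈ X) →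
      ∑ x ∈ X, p x * (Ψ (z * E ((∏ i, (Fin.cons x v : Fin (n + 1) → 𝓞 K) i : 𝓞 K) : K)) *
        ind (∏ i, (Fin.cons x v : Fin (n + 1) → 𝓞 K) i - κ ∈ q₀)) ≤
      (phi q₀)⁻¹ * (∑ x ∈ X, p x *
        Ψ (z * E ((∏ i, (Fin.cons x v : Fin (n + 1) → 𝓞 K) i : 𝓞 K) : K))) + C₃ / D := by
    intro v hv
    set F := ∏ i, v i with hF
    have hFM : cop F M := cop_prod fun i => hX _ (hv i)
    have hFq : cop F q₀ := cop_of_PD hq₀ hqM hFM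
    obtain ⟨κ', hκ', hκc⟩ := solve_mod hFq κ
    have hκq : cop κ' q₀ := hκc q₀ le_rfl hκ
    have h3 := hE κ' (z * E (F : K)) hκq
    have h4 : ∀ x : 𝓞 K, ind (∏ i, (Fin.cons x v : Fin (n + 1) → 𝓞 K) i - κ ∈ q₀) =
        ind (x - κ' ∈ q₀) := by
      intro x
      rw [Fin.prod_univ_succ]
      simp only [Fin.cons_zero, Fin.cons_succ]
      rw [← hF]
      apply ind_congr
      constructor
      · intro h
        apply cop_cancel hFq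
        have h6 : F * (x - κ') = (x * F - κ) - (F * κ' - κ) := by ring
        rw [h6]
        exact q₀.sub_mem h hκ'
      · intro h
        have h6 : x * F - κ = F * (x - κ') + (F * κ' - κ) := by ring
        rw [h6]
        exact q₀.add_mem (q₀.mul_mem_left _ h) hκ'
    have h7 : ∀ x : 𝓞 K, Ψ (z * E ((∏ i, (Fin.cons x v : Fin (n + 1) → 𝓞 K) i : 𝓞 K) : K)) =
        Ψ (z * E (F : K) * E (x : K)) := by
      intro x
      rw [Fin.prod_univ_succ]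
      simp only [Fin.cons_zero, Fin.cons_succ]
      rw [← hF]
      congr 1
      push_cast
      rw [map_mul]
      ring
    simp_rw [h4, h7]
    have h8 := (abs_le.1 h3).2
    have h9 := div_eq_inv_mul (∑ x ∈ X, p x * Ψ (z * E (F : K) * E (x : K))) (phi q₀)
    rw [h9] at h8
    simp_rw [mul_assoc] at h8 ⊢
    linarith
  refine (exk_mono hp e2).trans (le_of_eq ?_)
  rw [exk_add, exk_mul_left, exk_const hX1, div_eq_inv_mul (exk n X p _) (phi q₀)]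

/-- the sieve bound with windows and classes. -/
theorem sieve_use {M q₀ : Ideal (𝓞 K)} {n k : ℕ} {D : ℝ} {X Y : Finset (𝓞 K)}
    {p q : 𝓞 K → ℝ} {Ψ : Sp K → ℝ} (hΨ : Adm Ψ) (hq₀ : q₀ ≠ ⊥) (hqM : PD q₀ M) (hD : 1 ≤ D)
    (hX : ∀ x ∈ X, cop x M) (hp : ∀ x, 0 ≤ p x) (hX1 : ∑ x ∈ X, p x = 1)
    (hq : ∀ x, 0 ≤ q x) {C₃ ε' : ℝ} (hC₃ : 0 ≤ C₃)
    (hE : ∀ (κ : 𝓞 K) (w : Sp K), cop κ q₀ →
      |∑ x ∈ X, p x * Ψ (w * E (x : K)) * ind (x - κ ∈ q₀) -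
      (∑ x ∈ X, p x * Ψ (w * E (x : K))) / phi q₀| ≤ C₃ / D)
    (hS : ∀ (κ : 𝓞 K) (z : Sp K), exk k Y q (fun y => nm (Ideal.span {∏ i, y i}) *
      exk (n + 1) X p (fun x => exk (n + 1) X p (fun x' =>
        (Ψ (z * E ((∏ i, x i : 𝓞 K) : K)) * ind (∏ i, x i - κ ∈ q₀)) *
        (Ψ (z * E ((∏ i, x' i : 𝓞 K) : K)) * ind (∏ i, x' i - κ ∈ q₀)) *
        ind (∏ i, x i - ∏ i, x' i ∈ Ideal.span {∏ i, y i})))) ≤
      (exk (n + 1) X p (fun x =>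
        Ψ (z * E ((∏ i, x i : 𝓞 K) : K)) * ind (∏ i, x i - κ ∈ q₀))) ^ 2 + ε')
    (G A c : 𝓞 K) :
    exk k Y q (fun y => (phi q₀ * nm (Ideal.span {∏ i, y i})) *
      exk (n + 1) X p (fun v => exk (n + 1) X p (fun v' => Wd Ψ A G c (∏ i, v i) *
          Wd Ψ A G c (∏ i, v' i) *
          ind (∏ i, v i - ∏ i, v' i ∈ q₀ * Ideal.span {∏ i, y i})))) ≤
      (exk (n + 1) X p (fun v => Wd Ψ A G c (∏ i, v i))) ^ 2 +
        phi q₀ ^ 2 * ε' + (2 * phi q₀ * C₃ + phi q₀ ^ 2 * C₃ ^ 2) / D := by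
  set z : Sp K := E ((A : K) / ((G * c : 𝓞 K) : K)) with hz
  set φ : ℝ := phi q₀ with hφ
  have hφ0 : 0 < φ := phi_pos hq₀
  obtain ⟨R, hRc, hR1, hR2⟩ := exists_rep hq₀
  have hD' : (0 : ℝ) < D := by linarith
  have hW : ∀ f : 𝓞 K, Wd Ψ A G c f = Ψ (z * E (f : K)) := fun f => Wd_eq' Ψ A G c f
  simp_rw [hW]
  set P := exk (n + 1) X p (fun v => Ψ (z * E ((∏ i, v i : 𝓞 K) : K))) with hP
  have hΨ0 : ∀ w, 0 ≤ Ψ w := fun w => (hΨ.1 w).1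
  have hΨ1 : ∀ w, Ψ w ≤ 1 := fun w => (hΨ.1 w).2
  have hP0 : 0 ≤ P := exk_nonneg hp fun v _ => hΨ0 _
  have hP1 : P ≤ 1 := exk_le_one hp hX1 fun v => hΨ1 _
  -- step A
  have hA1 : exk k Y q (fun y => (φ * nm (Ideal.span {∏ i, y i})) *
      exk (n + 1) X p (fun v => exk (n + 1) X p (fun v' => Ψ (z * E ((∏ i, v i : 𝓞 K) : K)) *
          Ψ (z * E ((∏ i, v' i : 𝓞 K) : K)) *
          ind (∏ i, v i - ∏ i, v' i ∈ q₀ * Ideal.span {∏ i, y i})))) ≤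
      exk k Y q (fun y => φ * ∑ κ ∈ R, nm (Ideal.span {∏ i, y i}) *
      exk (n + 1) X p (fun x => exk (n + 1) X p (fun x' =>
        (Ψ (z * E ((∏ i, x i : 𝓞 K) : K)) * ind (∏ i, x i - κ ∈ q₀)) *
        (Ψ (z * E ((∏ i, x' i : 𝓞 K) : K)) * ind (∏ i, x' i - κ ∈ q₀)) *
        ind (∏ i, x i - ∏ i, x' i ∈ Ideal.span {∏ i, y i})))) := by
    refine exk_mono hq fun y _ => ?_
    rw [mul_assoc]
    refine mul_le_mul_of_nonneg_left ?_ hφ0.le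
    rw [← mul_sum]
    refine mul_le_mul_of_nonneg_left ?_ (nm_nonneg' _)
    rw [← exk_sum]
    refine exk_mono hp fun v hv => ?_
    rw [← exk_sum]
    refine exk_mono hp fun v' hv' => ?_
    by_cases h3 : (∏ i, v i - ∏ i, v' i ∈ q₀ * Ideal.span {∏ i, y i})
    · rw [ind_true h3, mul_one]
      have h4 : cop (∏ i, v i) q₀ := cop_of_PD hq₀ hqM (cop_prod fun i => hX _ (hv i))
      obtain ⟨κ, hκR, hκ⟩ := hR2 _ h4
      have h6 := single_le_sum (s := R) (f := fun κ =>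
        (Ψ (z * E ((∏ i, v i : 𝓞 K) : K)) * ind (∏ i, v i - κ ∈ q₀)) *
        (Ψ (z * E ((∏ i, v' i : 𝓞 K) : K)) * ind (∏ i, v' i - κ ∈ q₀)) *
        ind (∏ i, v i - ∏ i, v' i ∈ Ideal.span {∏ i, y i}))
        (fun κ _ => mul_nonneg (mul_nonneg (mul_nonneg (hΨ0 _) (ind_nonneg _))
          (mul_nonneg (hΨ0 _) (ind_nonneg _))) (ind_nonneg _)) hκR
      refine le_trans (le_of_eq ?_) h6
      have h9 : ∏ i, v i - ∏ i, v' i ∈ q₀ := Ideal.mul_le_left h3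
      have h10 : ∏ i, v i - ∏ i, v' i ∈ Ideal.span {∏ i, y i} := Ideal.mul_le_right h3
      have h11 : ∏ i, v' i - κ ∈ q₀ := by
        have : ∏ i, v' i - κ = (∏ i, v i - κ) - (∏ i, v i - ∏ i, v' i) := by ring
        rw [this]
        exact q₀.sub_mem hκ h9
      rw [ind_true hκ, ind_true h11, ind_true h10]
      ring
    · rw [ind_false h3, mul_zero]
      exact sum_nonneg fun κ _ => mul_nonneg (mul_nonneg (mul_nonneg (hΨ0 _) (ind_nonneg _))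
          (mul_nonneg (hΨ0 _) (ind_nonneg _))) (ind_nonneg _)
  refine hA1.trans ?_
  rw [exk_mul_left, exk_sum]
  -- step B, C
  have hB1 : ∀ κ ∈ R, exk k Y q (fun y => nm (Ideal.span {∏ i, y i}) *
      exk (n + 1) X p (fun x => exk (n + 1) X p (fun x' =>
        (Ψ (z * E ((∏ i, x i : 𝓞 K) : K)) * ind (∏ i, x i - κ ∈ q₀)) *
        (Ψ (z * E ((∏ i, x' i : 𝓞 K) : K)) * ind (∏ i, x' i - κ ∈ q₀)) *
        ind (∏ i, x i - ∏ i, x' i ∈ Ideal.span {∏ i, y i})))) ≤ (P / φ + C₃ / D) ^ 2 + ε' := by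
    intro κ hκ
    refine (hS κ z).trans ?_
    have h2 := class_le (n := n) hq₀ hqM hX hp hX1 hE κ (hR1 κ hκ) z
    rw [← hP, ← hφ] at h2
    have h3 : 0 ≤ exk (n + 1) X p (fun x =>
        Ψ (z * E ((∏ i, x i : 𝓞 K) : K)) * ind (∏ i, x i - κ ∈ q₀)) :=
      exk_nonneg hp fun v _ => mul_nonneg (hΨ0 _) (ind_nonneg _)
    gcongr
  refine (mul_le_mul_of_nonneg_left (sum_le_sum hB1) hφ0.le).trans ?_
  rw [sum_const, nsmul_eq_mul, hRc]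
  have e1 : φ * (φ * ((P / φ + C₃ / D) ^ 2 + ε')) = (P + φ * C₃ / D) ^ 2 + φ ^ 2 * ε' := by
    field_simp
  rw [e1]
  have e2 : (P + φ * C₃ / D) ^ 2 = P ^ 2 + 2 * P * (φ * C₃ / D) + (φ * C₃) ^ 2 / D ^ 2 := by
    field_simp
    ring
  rw [e2]
  have h1 : 2 * P * (φ * C₃ / D) ≤ 2 * φ * C₃ / D := by
    have : 0 ≤ φ * C₃ / D := by positivity
    have e3 : 2 * φ * C₃ / D = 2 * (φ * C₃ / D) := by ring
    rw [e3]
    nlinarith
  have h2 : (φ * C₃) ^ 2 / (D : ℝ) ^ 2 ≤ φ ^ 2 * C₃ ^ 2 / D := by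
    rw [mul_pow]
    refine div_le_div_of_nonneg_left (by positivity) hD' ?_
    nlinarith
  rw [add_div]
  linarith

end Pool.Agent.T9h91.NF
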