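import Pool.Agent.T9h91.NF.CoreU

/-!
# `CoreSOfK`: slots and windows
-/

set_option autoImplicit false

namespace Pool.Agent.T9h91.NF

open Finset NumberField Pool.Agent.T9h57.QD Pool.Agent.T9h11.NF

variable {K : Type} [Field K] [NumberField K]

theorem finite_E (B : ℝ) : {x : 𝓞 K | ‖(E (x : K) : Sp K)‖ ≤ B}.Finite := by
  have h := NumberField.Embeddings.finite_of_norm_le K ℂ B
  apply Set.Finite.of_injOn (f := fun x : 𝓞 K => (x : K)) (t := {x : K | IsIntegral ℤ x ∧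
    ∀ φ : K →+* ℂ, ‖φ x‖ ≤ B}) _ _ h
  · intro x hx
    refine ⟨RingOfIntegers.isIntegral_coe x, fun φ => ?_⟩
    have h1 : ‖(E (x : K) : Sp K) (InfinitePlace.mk φ)‖ ≤ B := (norm_le_pi_norm _ _).trans hx
    have h2 : (E (x : K) : Sp K) (InfinitePlace.mk φ) = (InfinitePlace.mk φ).embedding (x : K) := rfl
    rw [h2, InfinitePlace.norm_embedding_eq] at h1
    exact h1
  · intro x _ y _ hxy
    exact RingOfIntegers.coe_injective hxy

theorem lip_scale {L B D : ℝ} {F : Sp K → ℝ} (hD : 0 < D) (h : LipF L B F) :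
    LipF (L / D) (B * D) (fun z => F (D⁻¹ • z)) := by
  constructor
  · intro z z'
    refine (h.1 _ _).trans (le_of_eq ?_)
    rw [← smul_sub, norm_smul, Real.norm_eq_abs, abs_of_pos (by positivity : 0 < D⁻¹)]
    ring
  · intro z hz
    have h1 := h.2 _ hz
    rw [norm_smul, Real.norm_eq_abs, abs_of_pos (by positivity : 0 < D⁻¹),
      inv_mul_le_iff₀ hD] at h1
    linarith

theorem adm_bound {ρ : Sp K → ℝ} (hρ : Adm ρ) : ∃ c₁ c₂ : ℝ, 0 < c₁ ∧ c₁ ≤ c₂ ∧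
    ∀ (D : ℝ) (x : 𝓞 K), 0 < D → ρ (D⁻¹ • E (x : K)) ≠ 0 →
      ∀ v, c₁ * D ≤ ‖(E (x : K) : Sp K) v‖ ∧ ‖(E (x : K) : Sp K) v‖ ≤ c₂ * D := by
  obtain ⟨c₁, c₂, hc, h⟩ := hρ.2.2.1
  refine ⟨c₁, max c₂ c₁, hc, le_max_right _ _, fun D x hD hx v => ?_⟩
  have h1 := h _ hx v
  rw [Pi.smul_apply, norm_smul, Real.norm_eq_abs, abs_of_pos (by positivity : 0 < D⁻¹)] at h1
  constructor
  · have := h1.1
    rw [← div_eq_inv_mul, le_div_iff₀ hD] at this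
    exact this
  · have := h1.2
    rw [← div_eq_inv_mul, div_le_iff₀ hD] at this
    exact this.trans (mul_le_mul_of_nonneg_right (le_max_left _ _) hD.le)

theorem ne_zero_of_bound {c : ℝ} {x : 𝓞 K} (hc : 0 < c)
    (h : ∀ v, c ≤ ‖(E (x : K) : Sp K) v‖) : x ≠ 0 := by
  rintro rfl
  obtain ⟨v⟩ : Nonempty (InfinitePlace K) := inferInstance
  have h1 := h v
  have h2 : (E ((0 : 𝓞 K) : K) : Sp K) v = 0 := by
    rw [show ((0 : 𝓞 K) : K) = 0 from rfl, map_zero]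
    rfl
  rw [h2, norm_zero] at h1
  linarith

theorem E_prod {n : ℕ} (y : Fin n → 𝓞 K) (v : InfinitePlace K) :
    (E ((∏ i, y i : 𝓞 K) : K) : Sp K) v = ∏ i, (E (y i : K) : Sp K) v := by
  have h1 : ((∏ i, y i : 𝓞 K) : K) = ∏ i, (y i : K) := by
    exact map_prod (algebraMap (𝓞 K) K) y univ
  rw [h1, map_prod, Finset.prod_apply]

/-- bounds for the product over a slot. -/
theorem prod_bound {n : ℕ} {y : Fin n → 𝓞 K} {a b : ℝ} (ha : 0 ≤ a)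
    (h : ∀ i v, a ≤ ‖(E (y i : K) : Sp K) v‖ ∧ ‖(E (y i : K) : Sp K) v‖ ≤ b)
    (v : InfinitePlace K) :
    a ^ n ≤ ‖(E ((∏ i, y i : 𝓞 K) : K) : Sp K) v‖ ∧
      ‖(E ((∏ i, y i : 𝓞 K) : K) : Sp K) v‖ ≤ b ^ n := by
  rw [E_prod, norm_prod]
  constructor
  · calc a ^ n = ∏ _i : Fin n, a := by simp
      _ ≤ _ := prod_le_prod (fun i _ => ha) (fun i _ => (h i v).1)
  · calc _ ≤ ∏ _i : Fin n, b := prod_le_prod (fun i _ => norm_nonneg _) (fun i _ => (h i v).2)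
      _ = b ^ n := by simp

theorem smul_inv_smul {D : ℝ} (hD : 0 < D) (w z : Sp K) :
    (D⁻¹ • w) * (D⁻¹ • z)⁻¹ = w * z⁻¹ := by
  have hD' : (D : ℂ) ≠ 0 := by exact_mod_cast hD.ne'
  funext v
  simp only [Pi.mul_apply, Pi.smul_apply, Pi.inv_apply, Complex.real_smul, mul_inv]
  push_cast
  rw [inv_inv]
  field_simp

/-- the counting hypothesis from `CCountK`. -/
theorem cc_of {M q₀ τ : Ideal (𝓞 K)} {ρ Ψ : Sp K → ℝ} {D L B Cc Cs s : ℝ} {C : Finset (𝓞 K)}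
    (hρ : Adm ρ) (hq₀ : q₀ ≠ ⊥) (hD : 0 < D) (hs0 : 0 < s) (hsD : s ≤ D)
    (hs : s ^ Module.finrank ℚ K = nm τ) (hτ : τ ≠ ⊥) (hτM : IsCoprime τ M)
    (hL : 0 ≤ L) (hB : 0 ≤ B) (hCc : 1 ≤ Cc) (hCs : 1 ≤ Cs)
    (hlip : ∀ w w' : Sp K, LipF L B (fun z => ρ z * Ψ (w * z⁻¹) * Ψ (w' * z⁻¹)))
    (hlip0 : LipF L B ρ)
    (hcc : ∀ (κ : 𝓞 K), cop κ q₀ → ∀ (F : Sp K → ℝ) (L B : ℝ), 0 ≤ L → 0 ≤ B →
      LipF L B F → ∀ S : Finset (𝓞 K), (∀ x : 𝓞 K, F (E (x : K)) ≠ 0 → x ∈ S) →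
      |∑ x ∈ S, F (E (x : K)) * ind (cop x M ∧ x - κ ∈ q₀ * τ) -
        (∑ x ∈ S, F (E (x : K)) * ind (cop x M)) / (phi q₀ * nm τ)| ≤
        Cc * L * s * (1 + B / s) ^ Module.finrank ℚ K)
    (hsl : IsSlot ρ M D C)
    (hZ : D ^ Module.finrank ℚ K / Cs ≤ ∑ x ∈ C, wu ρ D x) :
    CC Ψ C (pr (wu ρ D) C) q₀ (q₀ * τ) (phi q₀ * nm τ)
      (Cc * L * (1 + B) ^ Module.finrank ℚ K * Cs * (s / D) / nm τ) := by
  set d := Module.finrank ℚ K with hd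
  set Z := ∑ x ∈ C, wu ρ D x with hZd
  have hDd : 0 < D ^ d := by positivity
  have hZ0 : 0 < Z := lt_of_lt_of_le (by positivity) hZ
  have hτ0 : 0 < nm τ := nm_pos hτ
  set S : Finset (𝓞 K) := (finite_E (K := K) (B * D)).toFinset with hS
  have hSm : ∀ x, x ∈ S ↔ ‖(E (x : K) : Sp K)‖ ≤ B * D := by
    intro x; rw [hS, Set.Finite.mem_toFinset]; rfl
  have hρS : ∀ x : 𝓞 K, ρ (D⁻¹ • E (x : K)) ≠ 0 → x ∈ S := by
    intro x hx
    rw [hSm]
    exact (lip_scale hD hlip0).2 _ hx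
  have hCS : C ⊆ S := fun x hx => hρS x ((hsl x).1 hx).2
  -- the error term
  have herr : Cc * (L / D) * s * (1 + B * D / s) ^ d / Z ≤
      Cc * L * (1 + B) ^ d * Cs * (s / D) / nm τ := by
    have h1 : (1 + B * D / s) ^ d ≤ (1 + B) ^ d * (D ^ d / nm τ) := by
      calc (1 + B * D / s) ^ d ≤ ((1 + B) * (D / s)) ^ d := by
            apply pow_le_pow_left₀ (by positivity)
            have : 1 ≤ D / s := by rw [le_div_iff₀ hs0]; linarith
            calc 1 + B * D / s = 1 + B * (D / s) := by ring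
              _ ≤ D / s + B * (D / s) := by linarith
              _ = _ := by ring
        _ = _ := by rw [mul_pow, div_pow, hs]
    have h2 : (1 : ℝ) / Z ≤ Cs / D ^ d := by
      rw [div_le_div_iff₀ hZ0 hDd, one_mul]
      rw [div_le_iff₀ (by linarith)] at hZ
      linarith
    calc Cc * (L / D) * s * (1 + B * D / s) ^ d / Z =
          (Cc * (L / D) * s) * (1 + B * D / s) ^ d * (1 / Z) := by ring
      _ ≤ (Cc * (L / D) * s) * ((1 + B) ^ d * (D ^ d / nm τ)) * (Cs / D ^ d) := by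
          apply mul_le_mul _ h2 (by positivity) (by positivity)
          exact mul_le_mul_of_nonneg_left h1 (by positivity)
      _ = _ := by field_simp
  -- from `S` to `C`
  have hconv : ∀ (F : Sp K → ℝ), (∀ x : 𝓞 K, F (E (x : K)) ≠ 0 → ρ (D⁻¹ • E (x : K)) ≠ 0) →
      ∀ g : 𝓞 K → Prop, ∑ x ∈ S, F (E (x : K)) * ind (cop x M ∧ g x) =
        ∑ x ∈ C, F (E (x : K)) * ind (g x) := by
    intro F hF g
    symm
    have e1 : ∑ x ∈ C, F (E (x : K)) * ind (g x) =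
        ∑ x ∈ C, F (E (x : K)) * ind (cop x M ∧ g x) := by
      refine sum_congr rfl fun x hx => ?_
      rw [ind_and, ind_true ((hsl x).1 hx).1, one_mul]
    rw [e1]
    refine sum_subset hCS fun x _ hx => ?_
    by_cases h1 : F (E (x : K)) = 0
    · rw [h1, zero_mul]
    · have h2 : ¬ (cop x M ∧ g x) := fun h3 => hx ((hsl x).2 ⟨h3.1, hF x h1⟩)
      rw [ind_false h2, mul_zero]
  have hconv' : ∀ (F : Sp K → ℝ), (∀ x : 𝓞 K, F (E (x : K)) ≠ 0 → ρ (D⁻¹ • E (x : K)) ≠ 0) →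
      ∑ x ∈ S, F (E (x : K)) * ind (cop x M) = ∑ x ∈ C, F (E (x : K)) := by
    intro F hF
    have h1 := hconv F hF (fun _ => True)
    simp only [and_true, ind_true trivial, mul_one] at h1
    exact h1
  have hpr : ∀ c, pr (wu ρ D) C c = ρ (D⁻¹ • E (c : K)) / Z := fun c => rfl
  -- the general form
  have gen : ∀ F : Sp K → ℝ, LipF (L / D) (B * D) F →
      (∀ x : 𝓞 K, F (E (x : K)) ≠ 0 → ρ (D⁻¹ • E (x : K)) ≠ 0) → ∀ κ : 𝓞 K, cop κ q₀ →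
      |(∑ x ∈ C, F (E (x : K)) * ind (x - κ ∈ q₀ * τ)) / Z -
        (∑ x ∈ C, F (E (x : K))) / Z / (phi q₀ * nm τ)| ≤
        Cc * L * (1 + B) ^ d * Cs * (s / D) / nm τ := by
    intro F hF hF2 κ hκ
    have h1 := hcc κ hκ F (L / D) (B * D) (by positivity) (by positivity) hF S
      (fun x hx => hρS x (hF2 x hx))
    rw [hconv F hF2, hconv' F hF2] at h1
    have h2 : (∑ x ∈ C, F (E (x : K)) * ind (x - κ ∈ q₀ * τ)) / Z -
        (∑ x ∈ C, F (E (x : K))) / Z / (phi q₀ * nm τ) =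
        (∑ x ∈ C, F (E (x : K)) * ind (x - κ ∈ q₀ * τ) -
        (∑ x ∈ C, F (E (x : K))) / (phi q₀ * nm τ)) / Z := by
      rw [sub_div, div_right_comm]
    rw [h2, abs_div, abs_of_pos hZ0]
    refine le_trans ?_ herr
    exact div_le_div_of_nonneg_right h1 hZ0.le
  constructor
  · intro w w' κ hκ
    have h1 := gen (fun z => ρ (D⁻¹ • z) * Ψ (w * z⁻¹) * Ψ (w' * z⁻¹)) (by
      have h2 := lip_scale hD (hlip (D⁻¹ • w) (D⁻¹ • w'))
      simp only [smul_inv_smul hD] at h2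
      exact h2) (fun x hx h0 => hx (by rw [h0, zero_mul, zero_mul])) κ hκ
    have e1 : ∑ c ∈ C, pr (wu ρ D) C c * (Ψ (w * (E (c : K))⁻¹) * Ψ (w' * (E (c : K))⁻¹) *
        ind (c - κ ∈ q₀ * τ)) = (∑ x ∈ C, ρ (D⁻¹ • E (x : K)) * Ψ (w * (E (x : K))⁻¹) *
          Ψ (w' * (E (x : K))⁻¹) * ind (x - κ ∈ q₀ * τ)) / Z := by
      rw [sum_div]
      refine sum_congr rfl fun c _ => ?_
      rw [hpr]
      ring
    have e2 : ∑ c ∈ C, pr (wu ρ D) C c * (Ψ (w * (E (c : K))⁻¹) * Ψ (w' * (E (c : K))⁻¹)) =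
        (∑ x ∈ C, ρ (D⁻¹ • E (x : K)) * Ψ (w * (E (x : K))⁻¹) *
          Ψ (w' * (E (x : K))⁻¹)) / Z := by
      rw [sum_div]
      refine sum_congr rfl fun c _ => ?_
      rw [hpr]
      ring
    rw [e1, e2]
    exact h1
  · intro κ hκ
    have h1 := gen (fun z => ρ (D⁻¹ • z)) (lip_scale hD hlip0) (fun x hx => hx) κ hκ
    have e1 : ∑ c ∈ C, pr (wu ρ D) C c * ind (c - κ ∈ q₀ * τ) =
        (∑ x ∈ C, ρ (D⁻¹ • E (x : K)) * ind (x - κ ∈ q₀ * τ)) / Z := by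
      rw [sum_div]
      refine sum_congr rfl fun c _ => ?_
      rw [hpr]
      ring
    have e2 : (∑ x ∈ C, ρ (D⁻¹ • E (x : K))) / Z = 1 := div_self hZ0.ne'
    rw [e1]
    rw [e2] at h1
    exact h1

end Pool.Agent.T9h91.NF
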